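import Mathlib
import Pool.Agent.K4H46.RX.MAIN

set_option autoImplicit false

/-! The density estimate on strips near the curve where `n` is tangent to the paraboloid. -/

namespace Pool.Agent.K4H46.CW

open MeasureTheory Set Complex
open scoped ENNReal NNReal RealInnerProductSpace
open Pool.Agent.K4H46.RX

/-- the component of the normal `(-2x, 1)` in the direction `n` -/
noncomputable def ell (n : E 3) (x : E 2) : ℝ := n 2 - 2 * (n 0 * x 0 + n 1 * x 1)

theorem ell_cont (n : E 3) : Continuous (ell n) := by unfold ell; fun_prop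

/-- the Gaussian kernel along a quadratic polynomial without critical point -/
theorem kb_mono (b : ℝ) (hb : 0 < b) (u v w m : ℝ) (hm : 0 < m) (P : Set ℝ) (hP : MeasurableSet P)
    (hmid : ∀ s ∈ P, ∀ t ∈ P, m ≤ |u + v * (s + t)|) :
    ∫⁻ t in P, ENNReal.ofReal (kb b (w - (u * t + v * t ^ 2))) ≤
      ENNReal.ofReal (2 * Real.pi / m) := by
  set g : ℝ → ℝ := fun t => u * t + v * t ^ 2 with hg
  have hinj : InjOn g P := by
    intro s hs t ht hst
    have h1 : g s - g t = (s - t) * (u + v * (s + t)) := by simp only [hg]; ring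
    rw [hst, sub_self] at h1
    rcases mul_eq_zero.1 h1.symm with h2 | h2
    · exact sub_eq_zero.1 h2
    · have := hmid s hs t ht
      rw [h2, abs_zero] at this
      linarith
  have hder : ∀ t ∈ P, HasDerivWithinAt g (u + v * (2 * t)) P t := by
    intro t _
    have h1 : HasDerivAt g (u + v * (2 * t)) t := by
      have h2 : HasDerivAt (fun t : ℝ => u * t) u t := by
        simpa using (hasDerivAt_id t).const_mul u
      have h3 : HasDerivAt (fun t : ℝ => v * t ^ 2) (v * (2 * t)) t := by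
        simpa using (hasDerivAt_pow 2 t).const_mul v
      exact h2.add h3
    exact h1.hasDerivWithinAt
  have hcov := lintegral_image_eq_lintegral_abs_deriv_mul hP hder hinj
    (fun y => ENNReal.ofReal (kb b (w - y)))
  have hm0 : ENNReal.ofReal m ≠ 0 := by simpa using hm
  have h2 : ENNReal.ofReal m * ∫⁻ t in P, ENNReal.ofReal (kb b (w - g t)) ≤
      ENNReal.ofReal (2 * Real.pi) := by
    rw [← lintegral_const_mul' _ _ ENNReal.ofReal_ne_top]
    calc ∫⁻ t in P, ENNReal.ofReal m * ENNReal.ofReal (kb b (w - g t))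
        ≤ ∫⁻ t in P, ENNReal.ofReal |u + v * (2 * t)| * ENNReal.ofReal (kb b (w - g t)) := by
          refine setLIntegral_mono' hP fun t ht => ?_
          gcongr
          have := hmid t ht t ht
          rwa [← two_mul] at this
      _ = ∫⁻ y in g '' P, ENNReal.ofReal (kb b (w - y)) := hcov.symm
      _ ≤ ∫⁻ y, ENNReal.ofReal (kb b (w - y)) := setLIntegral_le_lintegral _ _
      _ ≤ ENNReal.ofReal (2 * Real.pi) := by
          have h3 := kb_lint b 1 w hb one_pos
          rw [div_one] at h3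
          refine le_trans (le_of_eq ?_) h3
          refine lintegral_congr fun y => ?_
          rw [one_mul, ← kb_even, neg_sub]
  calc ∫⁻ t in P, ENNReal.ofReal (kb b (w - g t))
      = (ENNReal.ofReal m)⁻¹ * (ENNReal.ofReal m * ∫⁻ t in P, ENNReal.ofReal (kb b (w - g t))) := by
        rw [← mul_assoc, ENNReal.inv_mul_cancel hm0 ENNReal.ofReal_ne_top, one_mul]
    _ ≤ (ENNReal.ofReal m)⁻¹ * ENNReal.ofReal (2 * Real.pi) := by gcongr
    _ = ENNReal.ofReal (2 * Real.pi / m) := by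
        rw [ENNReal.ofReal_div_of_pos hm, mul_comm, div_eq_mul_inv]

/-- rotated coordinates -/
theorem rot_lint (c s : ℝ) (hcs : c ^ 2 + s ^ 2 = 1) (F : E 2 → ℝ≥0∞) (hF : Measurable F) :
    ∫⁻ x, F x = ∫⁻ r : ℝ, ∫⁻ p : ℝ, F !₂[c * p - s * r, s * p + c * r] := by
  set M : Matrix (Fin 2) (Fin 2) ℝ := !![c, -s; s, c] with hM
  have hdet : M.det = 1 := by
    rw [hM, Matrix.det_fin_two_of]
    nlinarith
  have hmap := Real.map_matrix_volume_pi_eq_smul_volume_pi (M := M) (by rw [hdet]; norm_num)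
  set h : (Fin 2 → ℝ) → ℝ≥0∞ := fun w => F (WithLp.toLp 2 w) with hh
  have hhm : Measurable h := hF.comp (PiLp.volume_preserving_toLp (Fin 2)).measurable
  have e1 : ∫⁻ x, F x = ∫⁻ w, h w := ((PiLp.volume_preserving_toLp (Fin 2)).lintegral_comp hF).symm
  have hMm : Measurable (Matrix.toLin' M : (Fin 2 → ℝ) →ₗ[ℝ] (Fin 2 → ℝ)) :=
    (LinearMap.continuous_of_finiteDimensional _).measurable
  have e2 : ∫⁻ v, h (Matrix.toLin' M v) = ∫⁻ w, h w := by
    rw [← lintegral_map hhm hMm, hmap, lintegral_smul_measure, hdet]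
    norm_num
  have e3 : ∫⁻ v, h (Matrix.toLin' M v) = ∫⁻ p : ℝ, ∫⁻ r : ℝ, F !₂[c * p - s * r, s * p + c * r] := by
    have h2 := (volume_preserving_finTwoArrow ℝ).symm
    rw [← h2.lintegral_comp_emb (MeasurableEquiv.finTwoArrow.symm.measurableEmbedding),
      Measure.volume_eq_prod, lintegral_prod]
    · refine lintegral_congr fun p => lintegral_congr fun r => ?_
      simp only [hh]
      congr 1
      ext i
      fin_cases i
      · simp [hM, Matrix.toLin'_apply, MeasurableEquiv.finTwoArrow, MeasurableEquiv.piFinTwo]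
        ring
      · simp [hM, Matrix.toLin'_apply, MeasurableEquiv.finTwoArrow, MeasurableEquiv.piFinTwo]
        ring
    · exact ((hhm.comp hMm).comp (MeasurableEquiv.finTwoArrow.symm.measurable)).aemeasurable
  rw [e1, ← e2, e3]
  refine lintegral_lintegral_swap ?_
  have hm : Measurable fun q : ℝ × ℝ => (!₂[c * q.1 - s * q.2, s * q.1 + c * q.2] : E 2) := by
    refine (PiLp.volume_preserving_toLp (Fin 2)).measurable.comp ?_
    refine measurable_pi_lambda _ fun i => ?_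
    fin_cases i
    · exact ((measurable_fst.const_mul c).sub (measurable_snd.const_mul s))
    · exact ((measurable_fst.const_mul s).add (measurable_snd.const_mul c))
  exact (hF.comp hm).aemeasurable

/-- the size of the horizontal part -/
theorem hor_ge {n : E 3} (hn : n 0 ^ 2 + n 1 ^ 2 + n 2 ^ 2 = 1) {x : E 2} (hx : ‖x‖ ≤ 1 / 2)
    {lam : ℝ} (hl : lam ≤ 1 / 4) (he : |ell n x| ≤ lam) : 1 / 4 ≤ n 0 ^ 2 + n 1 ^ 2 := by
  by_contra hcon
  rw [not_le] at hcon
  have h1 : (n 0 * x 0 + n 1 * x 1) ^ 2 ≤ (n 0 ^ 2 + n 1 ^ 2) * (x 0 ^ 2 + x 1 ^ 2) := by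
    nlinarith [sq_nonneg (n 0 * x 1 - n 1 * x 0)]
  have h2 : x 0 ^ 2 + x 1 ^ 2 ≤ 1 / 4 := by
    rw [← norm_sq_E2]
    nlinarith [norm_nonneg x]
  have h3 : (n 0 * x 0 + n 1 * x 1) ^ 2 ≤ 1 / 16 := by
    have : 0 ≤ n 0 ^ 2 + n 1 ^ 2 := by positivity
    nlinarith
  have h4 : |n 0 * x 0 + n 1 * x 1| ≤ 1 / 4 := by
    apply abs_le_of_sq_le_sq _ (by norm_num)
    nlinarith
  have h5 : |n 2| ≤ 3 / 4 := by
    have h6 : n 2 = ell n x + 2 * (n 0 * x 0 + n 1 * x 1) := by unfold ell; ring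
    rw [h6]
    refine (abs_add_le _ _).trans ?_
    rw [abs_mul, abs_two]
    linarith
  have h6 : n 2 ^ 2 ≤ 9 / 16 := by
    rw [← sq_abs]
    nlinarith [abs_nonneg (n 2)]
  linarith

variable (e : OrthonormalBasis (Fin 3) ℝ (E 3))

theorem inner3 (a b : E 3) : (⟪a, b⟫ : ℝ) = a 0 * b 0 + a 1 * b 1 + a 2 * b 2 := by
  rw [PiLp.inner_apply (𝕜 := ℝ), Fin.sum_univ_three]
  simp [mul_comm]

/-- Schur's test on the strip -/
theorem iiS {ρ : ℝ} (hρ : 1 < ρ) (b : ℝ) (hb : 0 < b) (U : Set (E 2)) (hU : MeasurableSet U)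
    (hUb : U ⊆ Metric.ball 0 (1 / 2)) (n : E 3) (hn : n 0 ^ 2 + n 1 ^ 2 + n 2 ^ 2 = 1)
    (lam : ℝ) (hlm : 4 * lam ≤ |(⟪n, e 2⟫ : ℝ)|) (hμ : 0 < |(⟪n, e 2⟫ : ℝ)|)
    (hUs : ∀ x ∈ U, |ell n x| ≤ lam) (x : E 2) (hx : x ∈ U) :
    ∫⁻ x' in U, ‖n 0 * (x 1 - x' 1) - n 1 * (x 0 - x' 0)‖ₑ ^ (1 - ρ) *
        ENNReal.ofReal (kb b (ph e x - ph e x')) ≤
      (1 / 2 : ℝ≥0∞) ^ (1 - ρ) * cρ ρ * ENNReal.ofReal (4 * Real.pi / |(⟪n, e 2⟫ : ℝ)|) := by
  set μ0 : ℝ := |(⟪n, e 2⟫ : ℝ)| with hμ0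
  have hxb : ‖x‖ ≤ 1 / 2 := (mem_ball_zero_iff.1 (hUb hx)).le
  have hμ1 : μ0 ≤ 1 := by
    have h1 := abs_real_inner_le_norm n (e 2)
    have h2 : ‖n‖ = 1 := by
      have : ‖n‖ ^ 2 = 1 := by
        rw [EuclideanSpace.norm_sq_eq, Fin.sum_univ_three]
        simpa using hn
      nlinarith [norm_nonneg n]
    rw [h2, e.norm_eq_one, one_mul] at h1
    exact h1
  have hh2 := hor_ge hn hxb (by linarith) (hUs x hx)
  set h : ℝ := Real.sqrt (n 0 ^ 2 + n 1 ^ 2) with hh
  have hhsq : h ^ 2 = n 0 ^ 2 + n 1 ^ 2 := Real.sq_sqrt (by positivity)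
  have hh0 : 0 ≤ h := Real.sqrt_nonneg _
  have hh12 : 1 / 2 ≤ h := by
    rw [hh]
    apply Real.le_sqrt_of_sq_le
    linarith
  have hhpos : 0 < h := by linarith
  have hh1 : h ≤ 1 := by
    have : h ^ 2 ≤ 1 := by rw [hhsq]; nlinarith [sq_nonneg (n 2)]
    nlinarith
  set c : ℝ := n 0 / h with hc
  set s : ℝ := n 1 / h with hs
  have hcs : c ^ 2 + s ^ 2 = 1 := by
    rw [hc, hs, div_pow, div_pow, ← add_div, ← hhsq]
    field_simp
  have hn0 : n 0 = h * c := by rw [hc]; field_simp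
  have hn1 : n 1 = h * s := by rw [hs]; field_simp
  have hkm : Measurable fun x' : E 2 => ENNReal.ofReal (kb b (ph e x - ph e x')) :=
    ((kb_cont b).measurable.comp (measurable_const.sub (ph_meas e))).ennreal_ofReal
  have hWm : Measurable fun x' : E 2 => ‖n 0 * (x 1 - x' 1) - n 1 * (x 0 - x' 0)‖ₑ ^ (1 - ρ) := by
    have h1 : Continuous fun x' : E 2 => n 0 * (x 1 - x' 1) - n 1 * (x 0 - x' 0) := by fun_prop
    exact h1.measurable.enorm.pow_const _
  have hFm : Measurable fun a : E 2 => U.indicator (fun x' : E 2 =>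
      ‖n 0 * (x 1 - x' 1) - n 1 * (x 0 - x' 0)‖ₑ ^ (1 - ρ) *
        ENNReal.ofReal (kb b (ph e x - ph e x'))) a := (hWm.mul hkm).indicator hU
  rw [← lintegral_indicator hU, rot_lint c s hcs _ hFm]
  set rx : ℝ := c * x 1 - s * x 0 with hrx
  have hrxb : |rx| ≤ 1 / 2 := by
    apply abs_le_of_sq_le_sq _ (by norm_num)
    have h1 : rx ^ 2 ≤ x 0 ^ 2 + x 1 ^ 2 := by
      have h2 : x 0 ^ 2 + x 1 ^ 2 - rx ^ 2 = (c * x 0 + s * x 1) ^ 2 := by
        rw [hrx]
        have : x 0 ^ 2 + x 1 ^ 2 = (c ^ 2 + s ^ 2) * (x 0 ^ 2 + x 1 ^ 2) := by rw [hcs, one_mul]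
        rw [this]
        ring
      nlinarith [sq_nonneg (c * x 0 + s * x 1)]
    have h2 : x 0 ^ 2 + x 1 ^ 2 ≤ 1 / 4 := by
      rw [← norm_sq_E2]
      nlinarith [norm_nonneg x]
    linarith
  set P : Set ℝ := {p | |n 2 - 2 * (h * p)| ≤ lam} with hP
  have hPm : MeasurableSet P := by
    have : Continuous fun p : ℝ => |n 2 - 2 * (h * p)| := by fun_prop
    exact measurableSet_le this.measurable measurable_const
  set u : ℝ := c * (e 2) 0 + s * (e 2) 1 with hu
  set vv : ℝ := (e 2) 2 with hvv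
  have hvv1 : |vv| ≤ 1 := by
    have h1 := PiLp.norm_apply_le (e 2) 2
    rw [e.norm_eq_one] at h1
    simpa using h1
  have hmid : ∀ p ∈ P, ∀ p' ∈ P, μ0 / 2 ≤ |u + vv * (p + p')| := by
    intro p hp p' hp'
    have h1 : h * (u + vv * (p + p')) = (⟪n, e 2⟫ : ℝ) -
        vv * ((n 2 - 2 * (h * p)) + (n 2 - 2 * (h * p'))) / 2 := by
      rw [inner3, hu, hn0, hn1]
      ring
    have h2 : |vv * ((n 2 - 2 * (h * p)) + (n 2 - 2 * (h * p'))) / 2| ≤ lam := by
      have h3 : |(n 2 - 2 * (h * p)) + (n 2 - 2 * (h * p'))| ≤ 2 * lam := by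
        refine (abs_add_le _ _).trans ?_
        have h4 : |n 2 - 2 * (h * p)| ≤ lam := hp
        have h5 : |n 2 - 2 * (h * p')| ≤ lam := hp'
        linarith
      rw [abs_div, abs_mul, abs_two]
      have h6 : |vv| * |(n 2 - 2 * (h * p)) + (n 2 - 2 * (h * p'))| ≤ 1 * (2 * lam) := by gcongr
      linarith
    have h3 : μ0 - lam ≤ |h * (u + vv * (p + p'))| := by
      rw [h1, hμ0]
      have := abs_sub_abs_le_abs_sub (⟪n, e 2⟫ : ℝ)
        (vv * ((n 2 - 2 * (h * p)) + (n 2 - 2 * (h * p'))) / 2)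
      linarith
    rw [abs_mul, abs_of_pos hhpos] at h3
    have h4 : h * |u + vv * (p + p')| ≤ |u + vv * (p + p')| := by
      have := abs_nonneg (u + vv * (p + p'))
      nlinarith
    linarith
  have hhe : ‖h‖ₑ ^ (1 - ρ) ≤ (1 / 2 : ℝ≥0∞) ^ (1 - ρ) := by
    have h1 : 1 - ρ = -(ρ - 1) := by ring
    rw [h1, ENNReal.rpow_neg, ENNReal.rpow_neg, ENNReal.inv_le_inv]
    refine ENNReal.rpow_le_rpow ?_ (by linarith)
    rw [← ofReal_norm, Real.norm_of_nonneg hh0]
    have : (1 / 2 : ℝ≥0∞) = ENNReal.ofReal (1 / 2) := by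
      rw [ENNReal.ofReal_div_of_pos (by norm_num)]
      simp
    rw [this]
    exact ENNReal.ofReal_le_ofReal hh12
  have hpt : ∀ r p : ℝ, (U.indicator (fun x' : E 2 =>
      ‖n 0 * (x 1 - x' 1) - n 1 * (x 0 - x' 0)‖ₑ ^ (1 - ρ) *
        ENNReal.ofReal (kb b (ph e x - ph e x'))) !₂[c * p - s * r, s * p + c * r]) ≤
      ((1 / 2 : ℝ≥0∞) ^ (1 - ρ) *
        (Icc (-(1 / 2) : ℝ) (1 / 2)).indicator (fun r => ‖rx - r‖ₑ ^ (1 - ρ)) r) *
      P.indicator (fun p => ENNReal.ofReal (kb b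
        ((ph e x - r * (-s * (e 2) 0 + c * (e 2) 1) - r ^ 2 * vv) - (u * p + vv * p ^ 2)))) p := by
    intro r p
    by_cases hac : (!₂[c * p - s * r, s * p + c * r] : E 2) ∈ U
    · have hb1 : ‖(!₂[c * p - s * r, s * p + c * r] : E 2)‖ ≤ 1 / 2 :=
        (mem_ball_zero_iff.1 (hUb hac)).le
      have hsq : ‖(!₂[c * p - s * r, s * p + c * r] : E 2)‖ ^ 2 = p ^ 2 + r ^ 2 := by
        rw [norm_sq_E2]
        simp only [Matrix.cons_val_zero, Matrix.cons_val_one]
        have : p ^ 2 + r ^ 2 = (c ^ 2 + s ^ 2) * (p ^ 2 + r ^ 2) := by rw [hcs, one_mul]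
        rw [this]
        ring
      have hr2 : r ^ 2 ≤ 1 / 4 := by
        nlinarith [norm_nonneg (!₂[c * p - s * r, s * p + c * r] : E 2), sq_nonneg p]
      have hr' : r ∈ Icc (-(1 / 2) : ℝ) (1 / 2) := abs_le.1 (by
        apply abs_le_of_sq_le_sq _ (by norm_num)
        linarith)
      have hell : ell n (!₂[c * p - s * r, s * p + c * r] : E 2) = n 2 - 2 * (h * p) := by
        unfold ell
        simp only [Matrix.cons_val_zero, Matrix.cons_val_one]
        rw [hn0, hn1]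
        have : h * p = h * (c ^ 2 + s ^ 2) * p := by rw [hcs, mul_one]
        rw [this]
        ring
      have hp' : p ∈ P := by
        show |n 2 - 2 * (h * p)| ≤ lam
        rw [← hell]
        exact hUs _ hac
      rw [indicator_of_mem hac, indicator_of_mem hr', indicator_of_mem hp']
      refine mul_le_mul' ?_ (le_of_eq ?_)
      · have h1 : n 0 * (x 1 - (!₂[c * p - s * r, s * p + c * r] : E 2) 1) -
            n 1 * (x 0 - (!₂[c * p - s * r, s * p + c * r] : E 2) 0) = h * (rx - r) := by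
          simp only [Matrix.cons_val_zero, Matrix.cons_val_one]
          rw [hn0, hn1, hrx]
          have : h * (c * x 1 - s * x 0 - r) =
            h * (c * x 1 - s * x 0 - (c ^ 2 + s ^ 2) * r) := by rw [hcs, one_mul]
          rw [this]
          ring
        rw [h1, enorm_mul, ENNReal.mul_rpow_of_ne_top enorm_ne_top enorm_ne_top]
        exact mul_le_mul_left hhe _
      · congr 2
        rw [ph_eq e (!₂[c * p - s * r, s * p + c * r] : E 2)]
        simp only [Matrix.cons_val_zero, Matrix.cons_val_one]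
        have h1 : ((c * p - s * r) ^ 2 + (s * p + c * r) ^ 2) = p ^ 2 + r ^ 2 := by
          have : p ^ 2 + r ^ 2 = (c ^ 2 + s ^ 2) * (p ^ 2 + r ^ 2) := by rw [hcs, one_mul]
          rw [this]
          ring
        rw [h1, hu, hvv]
        ring
    · rw [indicator_of_notMem hac]; exact zero_le
  calc ∫⁻ r : ℝ, ∫⁻ p : ℝ, (U.indicator (fun x' : E 2 =>
      ‖n 0 * (x 1 - x' 1) - n 1 * (x 0 - x' 0)‖ₑ ^ (1 - ρ) *
        ENNReal.ofReal (kb b (ph e x - ph e x'))) !₂[c * p - s * r, s * p + c * r])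
      ≤ ∫⁻ r : ℝ, ∫⁻ p : ℝ, ((1 / 2 : ℝ≥0∞) ^ (1 - ρ) *
        (Icc (-(1 / 2) : ℝ) (1 / 2)).indicator (fun r => ‖rx - r‖ₑ ^ (1 - ρ)) r) *
      P.indicator (fun p => ENNReal.ofReal (kb b
        ((ph e x - r * (-s * (e 2) 0 + c * (e 2) 1) - r ^ 2 * vv) - (u * p + vv * p ^ 2)))) p :=
        lintegral_mono fun r => lintegral_mono fun p => hpt r p
    _ ≤ ∫⁻ r : ℝ, ((1 / 2 : ℝ≥0∞) ^ (1 - ρ) *
        (Icc (-(1 / 2) : ℝ) (1 / 2)).indicator (fun r => ‖rx - r‖ₑ ^ (1 - ρ)) r) *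
        ENNReal.ofReal (4 * Real.pi / μ0) := by
        refine lintegral_mono fun r => ?_
        have hm3 : Measurable fun p : ℝ => P.indicator (fun p => ENNReal.ofReal (kb b
            ((ph e x - r * (-s * (e 2) 0 + c * (e 2) 1) - r ^ 2 * vv) - (u * p + vv * p ^ 2)))) p := by
          refine Measurable.indicator ?_ hPm
          refine ((kb_cont b).measurable.comp ?_).ennreal_ofReal
          fun_prop
        simp only
        rw [lintegral_const_mul _ hm3, lintegral_indicator hPm]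
        gcongr
        have h5 := kb_mono b hb u vv (ph e x - r * (-s * (e 2) 0 + c * (e 2) 1) - r ^ 2 * vv)
          (μ0 / 2) (by linarith) P hPm hmid
        refine h5.trans (le_of_eq ?_)
        congr 1
        field_simp
        norm_num
    _ ≤ (1 / 2 : ℝ≥0∞) ^ (1 - ρ) * cρ ρ * ENNReal.ofReal (4 * Real.pi / μ0) := by
        have hm4 : Measurable ((Icc (-(1 / 2) : ℝ) (1 / 2)).indicator
            (fun r => ‖rx - r‖ₑ ^ (1 - ρ))) :=
          ((measurable_const.sub measurable_id).enorm.pow_const _).indicator measurableSet_Icc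
        rw [lintegral_mul_const' _ _ ENNReal.ofReal_ne_top, lintegral_const_mul _ hm4,
          lintegral_indicator measurableSet_Icc]
        gcongr
        exact cρ_tr ρ rx hrxb

end Pool.Agent.K4H46.CW
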