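import Mathlib
import Pool.Agent.K4H46.CW.STR

set_option autoImplicit false

/-! The mixed norm estimate on strips. -/

namespace Pool.Agent.K4H46.CW

open MeasureTheory Set Complex
open scoped ENNReal NNReal RealInnerProductSpace
open Pool.Agent.K4H46.RX
open Pool.Agent.TH941.FN (ft ft_sq ft_cont)

/-- the determinant of the horizontal part of `n` and the difference -/
noncomputable def dt (n : E 3) (z : E 2 × E 2) : ℝ :=
  n 0 * (z.1 1 - z.2 1) - n 1 * (z.1 0 - z.2 0)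

theorem dt_cont (n : E 3) : Continuous (dt n) := by unfold dt; fun_prop

/-- the weight -/
noncomputable def WS (n : E 3) (lam ρ : ℝ) (z : E 2 × E 2) : ℝ≥0∞ :=
  if dt n z = 0 then (‖z.1 - z.2‖ₑ * ENNReal.ofReal lam) ^ (1 - ρ) else ‖dt n z‖ₑ ^ (1 - ρ)

theorem WS_meas (n : E 3) (lam ρ : ℝ) : Measurable (WS n lam ρ) := by
  unfold WS
  refine Measurable.ite ((dt_cont n).measurable (measurableSet_singleton 0)) ?_ ?_
  · exact ((measurable_fst.sub measurable_snd).enorm.mul_const _).pow_const _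
  · exact (dt_cont n).measurable.enorm.pow_const _

theorem WS_swap (n : E 3) (lam ρ : ℝ) (z : E 2 × E 2) : WS n lam ρ z.swap = WS n lam ρ z := by
  have h1 : dt n z.swap = -dt n z := by
    unfold dt
    simp only [Prod.fst_swap, Prod.snd_swap]
    ring
  unfold WS
  by_cases h : dt n z = 0
  · rw [if_pos (by rw [h1, h, neg_zero]), if_pos h, Prod.fst_swap, Prod.snd_swap, enorm_sub_rev]
  · rw [if_neg (by rw [h1, neg_eq_zero]; exact h), if_neg h, h1, enorm_neg]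

theorem WS_ne (n : E 3) (lam ρ : ℝ) (hlam : 0 < lam) (z : E 2 × E 2) (hz : z.1 ≠ z.2) :
    WS n lam ρ z ≠ 0 ∧ WS n lam ρ z ≠ ∞ := by
  have key : ∀ a : ℝ≥0∞, a ≠ 0 → a ≠ ∞ → a ^ (1 - ρ) ≠ 0 ∧ a ^ (1 - ρ) ≠ ∞ := fun a h0 ht =>
    ⟨(ENNReal.rpow_pos (pos_iff_ne_zero.2 h0) ht).ne', ENNReal.rpow_ne_top_of_ne_zero h0 ht⟩
  unfold WS
  split_ifs with h
  · apply key
    · refine mul_ne_zero ?_ (by simpa using hlam)
      rw [enorm_ne_zero]
      exact sub_ne_zero.2 hz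
    · exact ENNReal.mul_ne_top enorm_ne_top ENNReal.ofReal_ne_top
  · apply key
    · rw [enorm_ne_zero]; exact h
    · exact enorm_ne_top

theorem WS_le (n : E 3) (lam : ℝ) {ρ : ℝ} (hρ : 1 < ρ) (z : E 2 × E 2) :
    WS n lam ρ z ≤ ‖dt n z‖ₑ ^ (1 - ρ) := by
  unfold WS
  split_ifs with h
  · rw [h, enorm_zero, ENNReal.zero_rpow_of_neg (by linarith)]
    exact le_top
  · exact le_rfl

/-- the fibre integral -/
theorem iS {ρ : ℝ} (hρ : 1 < ρ) (U : Set (E 2)) (hUb : U ⊆ Metric.ball 0 (1 / 2)) (n : E 3)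
    (lam : ℝ) (hlam : 0 < lam) (hUs : ∀ x ∈ U, |ell n x| ≤ lam) (D : E 3)
    (hD : D 0 ^ 2 + D 1 ^ 2 ≠ 0) :
    ∫⁻ β in {β : ℝ | XX D β ∈ U}, WS n lam ρ (XX D β, XX D β - dd D) ^ (-(1 / (ρ - 1))) ≤
      ENNReal.ofReal lam := by
  have hρ1 : 0 < ρ - 1 := by linarith
  have hexp : (1 - ρ) * -(1 / (ρ - 1)) = 1 := by
    have : (1 - ρ) = -(ρ - 1) := by ring
    rw [this]
    field_simp
  have hdt : ∀ β : ℝ, dt n (XX D β, XX D β - dd D) = n 0 * D 1 - n 1 * D 0 := by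
    intro β
    unfold dt dd
    simp
  set κ : ℝ := n 0 * D 1 - n 1 * D 0 with hκ
  by_cases h0 : κ = 0
  · have h1 : ∀ β : ℝ, WS n lam ρ (XX D β, XX D β - dd D) ^ (-(1 / (ρ - 1))) =
        (‖XX D β - (XX D β - dd D)‖ₑ ^ (1 - ρ)) ^ (-(1 / (ρ - 1))) * ENNReal.ofReal lam := by
      intro β
      unfold WS
      rw [hdt, if_pos h0]
      simp only
      rw [← ENNReal.rpow_mul, ← ENNReal.rpow_mul, hexp, ENNReal.rpow_one, ENNReal.rpow_one]
    simp_rw [h1]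
    rw [lintegral_mul_const' _ _ ENNReal.ofReal_ne_top]
    have h2 := iB hρ U hUb D hD
    calc _ ≤ 1 * ENNReal.ofReal lam := by gcongr
      _ = _ := one_mul _
  · have h1 : ∀ β : ℝ, WS n lam ρ (XX D β, XX D β - dd D) ^ (-(1 / (ρ - 1))) = ‖κ‖ₑ := by
      intro β
      unfold WS
      rw [hdt, if_neg h0, ← ENNReal.rpow_mul, hexp, ENNReal.rpow_one]
    simp_rw [h1]
    rw [lintegral_const, Measure.restrict_apply_univ]
    set A : ℝ := n 2 - 2 * ((D 2 + (D 0 ^ 2 + D 1 ^ 2)) / (2 * (D 0 ^ 2 + D 1 ^ 2))) *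
      (n 0 * D 0 + n 1 * D 1) with hA
    have hell : ∀ β : ℝ, ell n (XX D β) = A + 2 * κ * β := by
      intro β
      unfold ell XX
      simp only [Matrix.cons_val_zero, Matrix.cons_val_one]
      rw [hA, hκ]
      ring
    have hsub : {β : ℝ | XX D β ∈ U} ⊆ Metric.closedBall (-(A / (2 * κ))) (lam / (2 * |κ|)) := by
      intro β hβ
      have h2 := hUs _ hβ
      rw [hell] at h2
      rw [Metric.mem_closedBall, Real.dist_eq]
      have h3 : A + 2 * κ * β = (2 * κ) * (β - -(A / (2 * κ))) := by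
        field_simp
        ring
      rw [h3, abs_mul, abs_mul, abs_two] at h2
      rw [le_div_iff₀ (by positivity)]
      linarith
    calc ‖κ‖ₑ * volume {β : ℝ | XX D β ∈ U}
        ≤ ‖κ‖ₑ * volume (Metric.closedBall (-(A / (2 * κ))) (lam / (2 * |κ|))) := by
          gcongr
      _ = ENNReal.ofReal lam := by
          rw [Real.volume_closedBall, ← ofReal_norm, Real.norm_eq_abs,
            ← ENNReal.ofReal_mul (abs_nonneg _)]
          congr 1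
          have : |κ| ≠ 0 := abs_ne_zero.2 h0
          field_simp

theorem dens_strip {ρ : ℝ} (hρ1 : 1 < ρ) (hρ2 : ρ < 2) : ∃ C : ℝ≥0∞, C ≠ ∞ ∧
    ∀ (e : OrthonormalBasis (Fin 3) ℝ (E 3)) (U : Set (E 2)), MeasurableSet U →
      U ⊆ Metric.ball 0 (1 / 2) → ∀ f : E 2 → ℂ, Measurable f → (∀ x, x ∉ U → f x = 0) →
      ∀ (n : E 3), n 0 ^ 2 + n 1 ^ 2 + n 2 ^ 2 = 1 → ∀ lam : ℝ, 0 < lam →
      4 * lam ≤ |(⟪n, e 2⟫ : ℝ)| → (∀ x ∈ U, |ell n x| ≤ lam) →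
      ∀ b : ℝ, 0 < b → ∫⁻ y, ‖Hf e f b y‖ₑ ^ ρ ≤
        C * (ENNReal.ofReal lam ^ (ρ - 1) * ENNReal.ofReal (1 / |(⟪n, e 2⟫ : ℝ)|) *
          ∫⁻ x, ‖f x‖ₑ ^ (2 * ρ)) := by
  have hρ : 0 < ρ := by linarith
  refine ⟨ENNReal.ofReal (2 * Real.pi) ^ (ρ - 1) *
    (2 * (2 * ((1 / 2 : ℝ≥0∞) ^ (1 - ρ) * cρ ρ * ENNReal.ofReal (4 * Real.pi)))), ?_, ?_⟩
  · refine ENNReal.mul_ne_top (ENNReal.rpow_ne_top_of_nonneg (by linarith) ENNReal.ofReal_ne_top) ?_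
    refine ENNReal.mul_ne_top (by norm_num) (ENNReal.mul_ne_top (by norm_num) ?_)
    refine ENNReal.mul_ne_top (ENNReal.mul_ne_top ?_ (cρ_lt ρ hρ2).ne) ENNReal.ofReal_ne_top
    exact ENNReal.rpow_ne_top_of_ne_zero (by norm_num) (by norm_num)
  intro e U hU hUb f hfm hfU n hn lam hlam hlm hUs b hb
  have hμ : 0 < |(⟪n, e 2⟫ : ℝ)| := by linarith
  have h := schur e hρ1 hfm U hU hfU b hb (WS n lam ρ) (WS_meas n lam ρ) (WS_swap n lam ρ)
    (fun z hz => WS_ne n lam ρ hlam z hz) (ENNReal.ofReal lam)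
    ((1 / 2 : ℝ≥0∞) ^ (1 - ρ) * cρ ρ * ENNReal.ofReal (4 * Real.pi / |(⟪n, e 2⟫ : ℝ)|))
    (fun D hD => iS hρ1 U hUb n lam hlam hUs D hD)
    (fun x hx => by
      refine le_trans (lintegral_mono fun x' => ?_)
        (iiS e hρ1 b hb U hU hUb n hn lam hlm hμ hUs x hx)
      gcongr
      exact WS_le n lam hρ1 (x, x'))
  refine h.trans (le_of_eq ?_)
  have h1 : ENNReal.ofReal (4 * Real.pi / |(⟪n, e 2⟫ : ℝ)|) =
      ENNReal.ofReal (4 * Real.pi) * ENNReal.ofReal (1 / |(⟪n, e 2⟫ : ℝ)|) := by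
    rw [← ENNReal.ofReal_mul (by positivity)]
    congr 1
    ring
  rw [h1, ENNReal.mul_rpow_of_nonneg _ _ (by linarith)]
  ring

/-- from the density to the mixed norm -/
theorem mixed_of {q : ℝ} (hq : 2 < q) : ∃ C : ℝ≥0,
    ∀ (e : OrthonormalBasis (Fin 3) ℝ (E 3)) (f : E 2 → ℂ), Measurable f → Integrable f →
      ∀ K : ℝ≥0∞, (∀ b : ℝ, 0 < b → ∫⁻ y, ‖Hf e f b y‖ₑ ^ (q / (q - 1)) ≤ K) →
      ∫⁻ y : E 2, (∫⁻ s : ℝ, ‖EE f (pt e y s)‖ₑ ^ 2) ^ q ≤ C * K ^ (q - 1) := by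
  have hq1 : 0 < q - 1 := by linarith
  obtain ⟨C, hC⟩ := hausdorff_young (V := E 2) hq
  refine ⟨C, ?_⟩
  intro e f hfm hf K hK
  set B : ℕ → ℝ := fun n => 1 / ((n : ℝ) + 1) with hB
  have hB0 : ∀ n, 0 < B n := fun n => by simp only [hB]; positivity
  have hF2 : Measurable fun p : E 2 × ℝ => ‖EE f (pt e p.1 p.2)‖ₑ ^ 2 :=
    ((EE_meas hfm).comp (pt_meas e)).enorm.pow_const 2
  set J : ℕ → E 2 → ℝ≥0∞ := fun n y =>
    ∫⁻ s : ℝ, ‖EE f (pt e y s)‖ₑ ^ 2 * ENNReal.ofReal (Real.exp (-(B n) * s ^ 2)) with hJ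
  have hem : ∀ n, Measurable fun s : ℝ => ENNReal.ofReal (Real.exp (-(B n) * s ^ 2)) := by
    intro n; fun_prop
  have hJm : ∀ n, Measurable (J n) := by
    intro n
    have : Measurable fun p : E 2 × ℝ => ‖EE f (pt e p.1 p.2)‖ₑ ^ 2 *
        ENNReal.ofReal (Real.exp (-(B n) * p.2 ^ 2)) := hF2.mul ((hem n).comp measurable_snd)
    exact this.lintegral_prod_right'
  have hmono : ∀ s : ℝ, Monotone fun n => ENNReal.ofReal (Real.exp (-(B n) * s ^ 2)) := by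
    intro s m n hmn
    apply ENNReal.ofReal_le_ofReal
    rw [Real.exp_le_exp]
    have h1 : B n ≤ B m := by
      simp only [hB]
      apply one_div_le_one_div_of_le (by positivity)
      have : (m : ℝ) ≤ n := by exact_mod_cast hmn
      linarith
    nlinarith [sq_nonneg s]
  have hsup : ∀ s : ℝ, ⨆ n, ENNReal.ofReal (Real.exp (-(B n) * s ^ 2)) = 1 := by
    intro s
    have h1 : Filter.Tendsto (fun n => ENNReal.ofReal (Real.exp (-(B n) * s ^ 2))) Filter.atTop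
        (nhds 1) := by
      rw [← ENNReal.ofReal_one]
      apply ENNReal.tendsto_ofReal
      have h2 : Filter.Tendsto (fun n : ℕ => -(B n) * s ^ 2) Filter.atTop (nhds 0) := by
        have h3 : Filter.Tendsto B Filter.atTop (nhds 0) := tendsto_one_div_add_atTop_nhds_zero_nat
        simpa using (h3.neg).mul_const (s ^ 2)
      have h4 := (Real.continuous_exp.tendsto 0).comp h2
      rwa [Real.exp_zero] at h4
    exact tendsto_nhds_unique (tendsto_atTop_iSup (hmono s)) h1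
  have hJsup : ∀ y, ∫⁻ s : ℝ, ‖EE f (pt e y s)‖ₑ ^ 2 = ⨆ n, J n y := by
    intro y
    have h1 : ∀ s : ℝ, ‖EE f (pt e y s)‖ₑ ^ 2 =
        ⨆ n, ‖EE f (pt e y s)‖ₑ ^ 2 * ENNReal.ofReal (Real.exp (-(B n) * s ^ 2)) := by
      intro s
      rw [← ENNReal.mul_iSup, hsup, mul_one]
    rw [lintegral_congr h1, lintegral_iSup]
    · intro n
      exact (hF2.comp (measurable_const.prodMk measurable_id)).mul (hem n)
    · intro m n hmn s
      exact mul_le_mul_right (hmono s hmn) _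
  have hJmono : Monotone J := by
    intro m n hmn y
    exact lintegral_mono fun s => mul_le_mul_right (hmono s hmn) _
  have hle : ∀ n, ∫⁻ y, J n y ^ q ≤ (C : ℝ≥0∞) * K ^ (q - 1) := by
    intro n
    have h1 : ∀ y, J n y = ‖ft (Hf e f (B n)) y‖ₑ := fun y => rep e hfm hf (B n) (hB0 n) y
    simp_rw [h1]
    calc ∫⁻ y, ‖ft (Hf e f (B n)) y‖ₑ ^ q
        ≤ C * (∫⁻ w, ‖Hf e f (B n) w‖ₑ ^ (q / (q - 1))) ^ (q - 1) :=
          hC _ (Hf_meas e hfm _) (Hf_int e hf _ (hB0 n))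
      _ ≤ C * K ^ (q - 1) := by
          gcongr
          exact hK (B n) (hB0 n)
  simp_rw [hJsup]
  have h5 : ∀ y, (⨆ n, J n y) ^ q = ⨆ n, J n y ^ q := by
    intro y
    exact Monotone.map_iSup_of_continuousAt (ENNReal.continuous_rpow_const.continuousAt)
      (ENNReal.monotone_rpow_of_nonneg (by linarith)) (by simp [ENNReal.zero_rpow_of_pos (show 0 < q by linarith)])
  simp_rw [h5]
  rw [lintegral_iSup (fun n => (hJm n).pow_const q)
    (fun m n hmn y => ENNReal.rpow_le_rpow (hJmono hmn y) (by linarith))]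
  exact iSup_le hle

/-- **The mixed norm estimate on strips.** -/
theorem mixed_strip {q : ℝ} (hq : 2 < q) : ∃ C : ℝ≥0,
    ∀ (e : OrthonormalBasis (Fin 3) ℝ (E 3)) (U : Set (E 2)), MeasurableSet U →
      U ⊆ Metric.ball 0 (1 / 2) → ∀ f : E 2 → ℂ, Measurable f → Integrable f →
      (∀ x, x ∉ U → f x = 0) → ∀ (n : E 3), n 0 ^ 2 + n 1 ^ 2 + n 2 ^ 2 = 1 → ∀ lam : ℝ, 0 < lam →
      4 * lam ≤ |(⟪n, e 2⟫ : ℝ)| → (∀ x ∈ U, |ell n x| ≤ lam) →
      ∫⁻ y : E 2, (∫⁻ s : ℝ, ‖EE f (pt e y s)‖ₑ ^ 2) ^ q ≤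
        C * (ENNReal.ofReal lam * ENNReal.ofReal (1 / |(⟪n, e 2⟫ : ℝ)|) ^ (q - 1) *
          (∫⁻ x, ‖f x‖ₑ ^ (2 * (q / (q - 1)))) ^ (q - 1)) := by
  have hq1 : 0 < q - 1 := by linarith
  have hρ1 : 1 < q / (q - 1) := by rw [lt_div_iff₀ hq1]; linarith
  have hρ2 : q / (q - 1) < 2 := by rw [div_lt_iff₀ hq1]; linarith
  obtain ⟨K, hKt, hK⟩ := dens_strip hρ1 hρ2
  obtain ⟨C, hC⟩ := mixed_of hq
  have hCK : (C : ℝ≥0∞) * K ^ (q - 1) ≠ ∞ :=
    ENNReal.mul_ne_top ENNReal.coe_ne_top (ENNReal.rpow_ne_top_of_nonneg hq1.le hKt)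
  refine ⟨((C : ℝ≥0∞) * K ^ (q - 1)).toNNReal, ?_⟩
  rw [ENNReal.coe_toNNReal hCK]
  intro e U hU hUb f hfm hf hfU n hn lam hlam hlm hUs
  refine (hC e f hfm hf _ (hK e U hU hUb f hfm hfU n hn lam hlam hlm hUs)).trans (le_of_eq ?_)
  rw [ENNReal.mul_rpow_of_nonneg _ _ hq1.le, ENNReal.mul_rpow_of_nonneg _ _ hq1.le,
    ENNReal.mul_rpow_of_nonneg _ _ hq1.le, ← ENNReal.rpow_mul (ENNReal.ofReal lam)]
  have h1 : (q / (q - 1) - 1) * (q - 1) = 1 := by field_simp; ring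
  rw [h1, ENNReal.rpow_one]
  ring

end Pool.Agent.K4H46.CW
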