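import Mathlib
import Pool.Agent.K4H46.CW.STR2
import Pool.Agent.R412.RT.Z
import Pool.Agent.R412.RT.S

set_option autoImplicit false

/-! The slab estimate and the basic bounds of `∫_S |Ef|²`. -/

namespace Pool.Agent.K4H46.CW

open MeasureTheory Set Complex
open scoped ENNReal NNReal RealInnerProductSpace
open Pool.Agent.K4H46.RX

theorem ell_inner (n : E 3) (x : E 2) : (⟪n, Pool.Agent.R412.RT.Nn x⟫ : ℝ) = ell n x := by
  rw [inner3]
  have h0 : Pool.Agent.R412.RT.Nn x (0 : Fin 3) = -2 * x 0 := Pool.Agent.R412.RT.Nn_cast x 0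
  have h1 : Pool.Agent.R412.RT.Nn x (1 : Fin 3) = -2 * x 1 := Pool.Agent.R412.RT.Nn_cast x 1
  have h2 : Pool.Agent.R412.RT.Nn x (2 : Fin 3) = 1 := Pool.Agent.R412.RT.Nn_last x
  rw [h0, h1, h2]
  unfold ell
  ring

theorem EE_ext (f : E 2 → ℂ) (ξ : E 3) : Pool.Agent.R412.RZ.ext univ f ξ = EE f ξ := by
  unfold Pool.Agent.R412.RZ.ext EE
  rw [setIntegral_univ]
  rfl

/-- the slab estimate -/
theorem slabEE (n : E 3) (hn : n ≠ 0) (s : ℝ) (w : ℝ → ℝ≥0∞) (hw : Measurable w)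
    (g : E 2 → ℂ) (hg : Integrable g) (μ : ℝ) (hμ : 0 < μ) (hs : |s| = 1)
    (hgV : ∀ x, g x ≠ 0 → μ ≤ s * ell n x) :
    ∫⁻ ξ : E 3, w ⟪n, ξ⟫ * ‖EE g ξ‖ₑ ^ 2 ≤
      ENNReal.ofReal ((2 * Real.pi) ^ 3) * ((∫⁻ a, w a) *
        (ENNReal.ofReal (1 / μ) * ∫⁻ x, ‖g x‖ₑ ^ 2)) := by
  have h1 := Pool.Agent.R412.RZ.ext_lint univ MeasurableSet.univ g (fun ξ => w ⟪n, ξ⟫)
  simp only [EE_ext, indicator_univ] at h1
  rw [h1]
  gcongr
  have h2 : ∀ ξ : E 3, w ⟪n, Pool.Agent.R412.RZ.cs • ξ⟫ =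
      (fun a => w (Pool.Agent.R412.RZ.cs • a)) ⟪n, ξ⟫ := by
    intro ξ
    simp only [real_inner_smul_right, smul_eq_mul]
  simp_rw [h2]
  have hwm : Measurable fun a : ℝ => w (Pool.Agent.R412.RZ.cs • a) :=
    hw.comp (measurable_const_smul _)
  have h3 := Pool.Agent.R412.RS.slabE n hn s (fun a => w (Pool.Agent.R412.RZ.cs • a)) hwm g hg
    (fun x hx => by
      by_contra h0
      apply hx
      show 0 < s * ⟪n, Pool.Agent.R412.RT.Nn x⟫
      rw [ell_inner]
      exact lt_of_lt_of_le hμ (hgV x h0))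
  refine h3.trans ?_
  refine mul_le_mul' (Pool.Agent.R412.RZ.scaleV volume w hw) ?_
  rw [← lintegral_const_mul' _ _ ENNReal.ofReal_ne_top]
  refine lintegral_mono fun x => ?_
  by_cases h0 : g x = 0
  · rw [h0]; simp
  · have h4 := hgV x h0
    have h5 : |s * ell n x| = |ell n x| := by rw [abs_mul, hs, one_mul]
    have h6 : μ ≤ |ell n x| := by
      rw [← h5]
      exact h4.trans (le_abs_self _)
    rw [ell_inner, div_eq_mul_inv, mul_comm]
    gcongr
    rw [← ENNReal.ofReal_inv_of_pos (by linarith)]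
    apply ENNReal.ofReal_le_ofReal
    rw [one_div]
    exact inv_anti₀ hμ h6

/-- the size of the strips -/
theorem strip_meas {n : E 3} (hn : n 0 ^ 2 + n 1 ^ 2 + n 2 ^ 2 = 1) (lam : ℝ) (hlam : 0 ≤ lam) :
    volume (Metric.ball (0 : E 2) (1 / 2) ∩ {x | |ell n x| ≤ lam}) ≤ ENNReal.ofReal (4 * lam) := by
  have hball : volume (Metric.ball (0 : E 2) (1 / 2)) ≤ 1 := by
    rw [EuclideanSpace.volume_ball_fin_two, ← ENNReal.ofReal_pow (by norm_num),
      ← ENNReal.ofReal_mul (by norm_num), ← ENNReal.ofReal_one]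
    apply ENNReal.ofReal_le_ofReal
    have := Real.pi_le_four
    linarith
  have hSm : MeasurableSet (Metric.ball (0 : E 2) (1 / 2) ∩ {x | |ell n x| ≤ lam}) :=
    Metric.isOpen_ball.measurableSet.inter
      (measurableSet_le (ell_cont n).abs.measurable measurable_const)
  rcases le_or_gt (1 / 4) lam with hl | hl
  · refine (measure_mono inter_subset_left).trans (hball.trans ?_)
    rw [← ENNReal.ofReal_one]
    apply ENNReal.ofReal_le_ofReal
    linarith
  rcases Set.eq_empty_or_nonempty (Metric.ball (0 : E 2) (1 / 2) ∩ {x | |ell n x| ≤ lam}) with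
    hem | ⟨x, hx⟩
  · rw [hem, measure_empty]
    exact zero_le
  have hh2 := hor_ge hn (mem_ball_zero_iff.1 hx.1).le hl.le hx.2
  set h : ℝ := Real.sqrt (n 0 ^ 2 + n 1 ^ 2) with hh
  have hhsq : h ^ 2 = n 0 ^ 2 + n 1 ^ 2 := Real.sq_sqrt (by positivity)
  have hh12 : 1 / 2 ≤ h := by
    rw [hh]
    apply Real.le_sqrt_of_sq_le
    linarith
  have hhpos : 0 < h := by linarith
  set c : ℝ := n 0 / h with hc
  set s : ℝ := n 1 / h with hs
  have hcs : c ^ 2 + s ^ 2 = 1 := by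
    rw [hc, hs, div_pow, div_pow, ← add_div, ← hhsq]
    field_simp
  have hn0 : n 0 = h * c := by rw [hc]; field_simp
  have hn1 : n 1 = h * s := by rw [hs]; field_simp
  rw [← lintegral_indicator_one hSm, rot_lint c s hcs _ (measurable_one.indicator hSm)]
  have hpt : ∀ r p : ℝ, (Metric.ball (0 : E 2) (1 / 2) ∩ {x | |ell n x| ≤ lam}).indicator
      (1 : E 2 → ℝ≥0∞) !₂[c * p - s * r, s * p + c * r] ≤
      (Icc (-(1 / 2) : ℝ) (1 / 2)).indicator (fun _ => (1 : ℝ≥0∞)) r *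
      (Metric.closedBall (n 2 / (2 * h)) lam).indicator (fun _ => (1 : ℝ≥0∞)) p := by
    intro r p
    by_cases hac : (!₂[c * p - s * r, s * p + c * r] : E 2) ∈
      Metric.ball (0 : E 2) (1 / 2) ∩ {x | |ell n x| ≤ lam}
    · have hb1 : ‖(!₂[c * p - s * r, s * p + c * r] : E 2)‖ ≤ 1 / 2 :=
        (mem_ball_zero_iff.1 hac.1).le
      have hsq : ‖(!₂[c * p - s * r, s * p + c * r] : E 2)‖ ^ 2 = p ^ 2 + r ^ 2 := by
        rw [norm_sq_E2]
        simp only [Matrix.cons_val_zero, Matrix.cons_val_one]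
        have : p ^ 2 + r ^ 2 = (c ^ 2 + s ^ 2) * (p ^ 2 + r ^ 2) := by rw [hcs, one_mul]
        rw [this]
        ring
      have hr2 : r ^ 2 ≤ 1 / 4 := by
        nlinarith [norm_nonneg (!₂[c * p - s * r, s * p + c * r] : E 2), sq_nonneg p]
      have hr' : r ∈ Icc (-(1 / 2) : ℝ) (1 / 2) := abs_le.1 (by
        apply abs_le_of_sq_le_sq _ (by norm_num)
        linarith)
      have hell : ell n (!₂[c * p - s * r, s * p + c * r] : E 2) = n 2 - 2 * (h * p) := by
        unfold ell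
        simp only [Matrix.cons_val_zero, Matrix.cons_val_one]
        rw [hn0, hn1]
        have : h * p = h * (c ^ 2 + s ^ 2) * p := by rw [hcs, mul_one]
        rw [this]
        ring
      have hp' : p ∈ Metric.closedBall (n 2 / (2 * h)) lam := by
        have h1 : |ell n (!₂[c * p - s * r, s * p + c * r] : E 2)| ≤ lam := hac.2
        rw [hell] at h1
        rw [Metric.mem_closedBall, Real.dist_eq]
        have h2 : n 2 - 2 * (h * p) = -(2 * h) * (p - n 2 / (2 * h)) := by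
          field_simp
          ring
        rw [h2, abs_mul, abs_neg, abs_of_pos (by positivity)] at h1
        have h3 := abs_nonneg (p - n 2 / (2 * h))
        nlinarith
      rw [indicator_of_mem hac, indicator_of_mem hr', indicator_of_mem hp']
      simp
    · rw [indicator_of_notMem hac]; exact zero_le
  refine le_trans (lintegral_mono fun r => lintegral_mono fun p => hpt r p) ?_
  calc ∫⁻ r : ℝ, ∫⁻ p : ℝ, (Icc (-(1 / 2) : ℝ) (1 / 2)).indicator (fun _ => (1 : ℝ≥0∞)) r *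
          (Metric.closedBall (n 2 / (2 * h)) lam).indicator (fun _ => (1 : ℝ≥0∞)) p
      = 1 * ENNReal.ofReal (2 * lam) := by
        have h1 : ∀ r : ℝ, ∫⁻ p : ℝ, (Icc (-(1 / 2) : ℝ) (1 / 2)).indicator
            (fun _ => (1 : ℝ≥0∞)) r *
            (Metric.closedBall (n 2 / (2 * h)) lam).indicator (fun _ => (1 : ℝ≥0∞)) p =
            (Icc (-(1 / 2) : ℝ) (1 / 2)).indicator (fun _ => (1 : ℝ≥0∞)) r *
              ENNReal.ofReal (2 * lam) := by
          intro r
          rw [lintegral_const_mul _ (measurable_const.indicator measurableSet_closedBall),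
            lintegral_indicator_const measurableSet_closedBall, one_mul, Real.volume_closedBall]
        simp_rw [h1]
        rw [lintegral_mul_const' _ _ ENNReal.ofReal_ne_top,
          lintegral_indicator_const measurableSet_Icc, one_mul, Real.volume_Icc]
        norm_num
    _ ≤ ENNReal.ofReal (4 * lam) := by
        rw [one_mul]
        exact ENNReal.ofReal_le_ofReal (by linarith)

variable (e : OrthonormalBasis (Fin 3) ℝ (E 3))

/-- the coordinates across the lines -/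
noncomputable def yc (ξ : E 3) : E 2 := !₂[⟪e 0, ξ⟫, ⟪e 1, ξ⟫]

theorem yc_meas : Measurable (yc e) := by
  unfold yc
  refine (PiLp.volume_preserving_toLp (Fin 2)).measurable.comp ?_
  refine measurable_pi_lambda _ fun i => ?_
  fin_cases i
  · exact (measurable_const.inner measurable_id : Measurable fun ξ : E 3 => (⟪e 0, ξ⟫ : ℝ))
  · exact (measurable_const.inner measurable_id : Measurable fun ξ : E 3 => (⟪e 1, ξ⟫ : ℝ))

theorem yc_pt (y : E 2) (s : ℝ) : yc e (pt e y s) = y := by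
  have h : ∀ i j : Fin 3, (⟪e i, e j⟫ : ℝ) = if i = j then 1 else 0 :=
    fun i j => orthonormal_iff_ite.1 e.orthonormal i j
  ext i
  fin_cases i
  · show (⟪e 0, pt e y s⟫ : ℝ) = y 0
    unfold pt
    rw [inner_add_right, inner_add_right, real_inner_smul_right, real_inner_smul_right,
      real_inner_smul_right, h, h, h]
    simp
  · show (⟪e 1, pt e y s⟫ : ℝ) = y 1
    unfold pt
    rw [inner_add_right, inner_add_right, real_inner_smul_right, real_inner_smul_right,
      real_inner_smul_right, h, h, h]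
    simp

/-- the product set -/
def SS (n : E 3) (A : Set (E 2)) (B : Set ℝ) : Set (E 3) := {ξ | yc e ξ ∈ A ∧ (⟪n, ξ⟫ : ℝ) ∈ B}

theorem SS_meas (n : E 3) {A : Set (E 2)} {B : Set ℝ} (hA : MeasurableSet A)
    (hB : MeasurableSet B) : MeasurableSet (SS e n A B) :=
  ((yc_meas e) hA).inter ((measurable_const.inner measurable_id) hB)

/-- integrals of product functions -/
theorem prod_lint (n : E 3) (hn : (⟪n, e 2⟫ : ℝ) ≠ 0) (u : E 2 → ℝ≥0∞) (w : ℝ → ℝ≥0∞)
    (hu : Measurable u) (hw : Measurable w) :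
    ∫⁻ ξ : E 3, u (yc e ξ) * w ⟪n, ξ⟫ =
      ENNReal.ofReal (1 / |(⟪n, e 2⟫ : ℝ)|) * ((∫⁻ y, u y) * ∫⁻ t, w t) := by
  have hwn : Measurable fun ξ : E 3 => w ⟪n, ξ⟫ := hw.comp (measurable_const.inner measurable_id)
  have hFm : Measurable fun ξ : E 3 => u (yc e ξ) * w ⟪n, ξ⟫ := (hu.comp (yc_meas e)).mul hwn
  rw [lint_E3 e _ hFm]
  have h1 : ∀ y : E 2, ∫⁻ s : ℝ, u (yc e (pt e y s)) * w ⟪n, pt e y s⟫ =
      u y * (ENNReal.ofReal (1 / |(⟪n, e 2⟫ : ℝ)|) * ∫⁻ t, w t) := by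
    intro y
    have h2 : ∀ s : ℝ, u (yc e (pt e y s)) * w ⟪n, pt e y s⟫ =
        u y * w ((⟪n, e 2⟫ : ℝ) * s + (⟪n, pt e y 0⟫ : ℝ)) := by
      intro s
      rw [yc_pt]
      congr 2
      have h3 : pt e y s = pt e y 0 + s • e 2 := by
        unfold pt
        simp
      rw [h3, inner_add_right, real_inner_smul_right]
      ring
    simp_rw [h2]
    have hm : Measurable fun s : ℝ => w ((⟪n, e 2⟫ : ℝ) * s + (⟪n, pt e y 0⟫ : ℝ)) :=
      hw.comp (by fun_prop)
    rw [lintegral_const_mul _ hm]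
    congr 1
    have h4 : ∫⁻ s : ℝ, w ((⟪n, e 2⟫ : ℝ) * s + (⟪n, pt e y 0⟫ : ℝ)) =
        ∫⁻ s : ℝ, (fun t => w (t + (⟪n, pt e y 0⟫ : ℝ))) ((⟪n, e 2⟫ : ℝ) * s) := rfl
    rw [h4]
    have h5 := Measure.map_addHaar_smul (volume : Measure ℝ) hn
    have hwt : Measurable fun t : ℝ => w (t + (⟪n, pt e y 0⟫ : ℝ)) := hw.comp (by fun_prop)
    have h6 : ∫⁻ a, w (a + (⟪n, pt e y 0⟫ : ℝ)) ∂(Measure.map ((⟪n, e 2⟫ : ℝ) • ·) (volume : Measure ℝ)) =
        ∫⁻ a : ℝ, (fun t => w (t + (⟪n, pt e y 0⟫ : ℝ))) ((⟪n, e 2⟫ : ℝ) * a) :=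
      lintegral_map hwt (measurable_const_smul _)
    rw [← h6, h5, lintegral_smul_measure, smul_eq_mul, Module.finrank_self, pow_one, one_div,
      abs_inv]
    congr 1
    exact lintegral_add_right_eq_self w _
  simp_rw [h1]
  rw [lintegral_mul_const _ hu]
  ring

end Pool.Agent.K4H46.CW
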