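import Mathlib
import Pool.Agent.K4H46.CW.SLAB

set_option autoImplicit false

/-! Basic bounds and the interpolation of one piece. -/

namespace Pool.Agent.K4H46.CW

open MeasureTheory Set Complex
open scoped ENNReal NNReal RealInnerProductSpace
open Pool.Agent.K4H46.RX

/-- the `L²` norm of `Ef` over `S` -/
noncomputable def Ms (S : Set (E 3)) (g : E 2 → ℂ) : ℝ≥0∞ :=
  (∫⁻ ξ in S, ‖EE g ξ‖ₑ ^ 2) ^ (1 / 2 : ℝ)

theorem Ms_sq (S : Set (E 3)) (g : E 2 → ℂ) : Ms S g ^ 2 = ∫⁻ ξ in S, ‖EE g ξ‖ₑ ^ 2 := by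
  unfold Ms
  rw [← ENNReal.rpow_natCast, ← ENNReal.rpow_mul]
  norm_num

theorem Ms_le_of_sq {S : Set (E 3)} {g : E 2 → ℂ} {K : ℝ≥0∞}
    (h : ∫⁻ ξ in S, ‖EE g ξ‖ₑ ^ 2 ≤ K) : Ms S g ≤ K ^ (1 / 2 : ℝ) :=
  ENNReal.rpow_le_rpow h (by norm_num)

theorem EE_integrable {g : E 2 → ℂ} (hg : Integrable g) (ξ : E 3) :
    Integrable fun x => cexp (-((⟪Phi x, ξ⟫ : ℝ) : ℂ) * I) * g x := by
  have h1 : Measurable fun x : E 2 => cexp (-((⟪Phi x, ξ⟫ : ℝ) : ℂ) * I) :=
    Complex.measurable_exp.comp ((Complex.measurable_ofReal.comp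
      (Phi_meas.inner measurable_const)).neg.mul_const I)
  exact hg.bdd_mul (c := 1) h1.aestronglyMeasurable
    (Filter.Eventually.of_forall fun x => (norm_ker _).le)

theorem EE_add {g h : E 2 → ℂ} (hg : Integrable g) (hh : Integrable h) (ξ : E 3) :
    EE (fun x => g x + h x) ξ = EE g ξ + EE h ξ := by
  unfold EE
  rw [← integral_add (EE_integrable hg ξ) (EE_integrable hh ξ)]
  congr 1
  ext x
  ring

theorem EE_norm_le (g : E 2 → ℂ) (ξ : E 3) : ‖EE g ξ‖ₑ ≤ ∫⁻ x, ‖g x‖ₑ := by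
  unfold EE
  refine (enorm_integral_le_lintegral_enorm _).trans (le_of_eq ?_)
  refine lintegral_congr fun x => ?_
  rw [enorm_mul]
  have : ‖cexp (-((⟪Phi x, ξ⟫ : ℝ) : ℂ) * I)‖ₑ = 1 := by
    rw [← ofReal_norm, norm_ker]
    simp
  rw [this, one_mul]

theorem EE_congr {g h : E 2 → ℂ} (hgh : g =ᵐ[volume] h) (ξ : E 3) : EE g ξ = EE h ξ := by
  unfold EE
  refine integral_congr_ae ?_
  filter_upwards [hgh] with x hx
  rw [hx]

theorem Ms_add (S : Set (E 3)) {g h : E 2 → ℂ} (hgm : Measurable g) (hhm : Measurable h)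
    (hg : Integrable g) (hh : Integrable h) :
    Ms S (fun x => g x + h x) ≤ Ms S g + Ms S h := by
  have h1 := ENNReal.lintegral_Lp_add_le (μ := volume.restrict S) (p := 2)
    (f := fun ξ => ‖EE g ξ‖ₑ) (g := fun ξ => ‖EE h ξ‖ₑ) (EE_meas hgm).enorm.aemeasurable
    (EE_meas hhm).enorm.aemeasurable (by norm_num)
  unfold Ms
  simp only [← ENNReal.rpow_two]
  refine le_trans ?_ h1
  refine ENNReal.rpow_le_rpow (lintegral_mono fun ξ => ?_) (by norm_num)
  refine ENNReal.rpow_le_rpow ?_ (by norm_num)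
  simp only [Pi.add_apply]
  rw [EE_add hg hh]
  exact enorm_add_le _ _

theorem Ms_zero (S : Set (E 3)) {g : E 2 → ℂ} (hg : g =ᵐ[volume] 0) : Ms S g = 0 := by
  unfold Ms
  have h1 : ∀ ξ, EE g ξ = 0 := by
    intro ξ
    rw [EE_congr hg]
    unfold EE
    simp
  simp_rw [h1]
  simp

theorem Ms_split (S : Set (E 3)) {g : E 2 → ℂ} (hgm : Measurable g) (hg : Integrable g)
    {T : Set (E 2)} (hT : MeasurableSet T) :
    Ms S g ≤ Ms S (T.indicator g) + Ms S (Tᶜ.indicator g) := by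
  have h1 : g = fun x => T.indicator g x + Tᶜ.indicator g x := by
    ext x
    by_cases hx : x ∈ T
    · rw [indicator_of_mem hx, indicator_of_notMem (show x ∉ Tᶜ from fun h => h hx), add_zero]
    · rw [indicator_of_notMem hx, indicator_of_mem (show x ∈ Tᶜ from hx), zero_add]
  conv_lhs => rw [h1]
  exact Ms_add S (hgm.indicator hT) (hgm.indicator hT.compl) (hg.indicator hT)
    (hg.indicator hT.compl)

/-- the trivial bound -/
theorem Ms_triv (S : Set (E 3)) (g : E 2 → ℂ) :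
    ∫⁻ ξ in S, ‖EE g ξ‖ₑ ^ 2 ≤ volume S * (∫⁻ x, ‖g x‖ₑ) ^ 2 := by
  calc ∫⁻ ξ in S, ‖EE g ξ‖ₑ ^ 2 ≤ ∫⁻ _ in S, (∫⁻ x, ‖g x‖ₑ) ^ 2 := by
        refine lintegral_mono fun ξ => ?_
        gcongr
        exact EE_norm_le g ξ
    _ = _ := by
        rw [lintegral_const, Measure.restrict_apply_univ, mul_comm]

variable (e : OrthonormalBasis (Fin 3) ℝ (E 3))

/-- the bound through the lines -/
theorem Ms_plane {m : ℝ} (hm : 1 < m) (n : E 3) {A : Set (E 2)} {B : Set ℝ}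
    (hA : MeasurableSet A) (hB : MeasurableSet B) {g : E 2 → ℂ} (hgm : Measurable g) :
    ∫⁻ ξ in SS e n A B, ‖EE g ξ‖ₑ ^ 2 ≤ volume A ^ (1 - 1 / m) *
      (∫⁻ y : E 2, (∫⁻ s : ℝ, ‖EE g (pt e y s)‖ₑ ^ 2) ^ m) ^ (1 / m) := by
  set G : E 2 → ℝ≥0∞ := fun y => ∫⁻ s : ℝ, ‖EE g (pt e y s)‖ₑ ^ 2 with hG
  have hF2 : Measurable fun p : E 2 × ℝ => ‖EE g (pt e p.1 p.2)‖ₑ ^ 2 :=
    ((EE_meas hgm).comp (pt_meas e)).enorm.pow_const 2
  have hGm : Measurable G := hF2.lintegral_prod_right'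
  have hSm := SS_meas e n hA hB
  have h1 : ∫⁻ ξ in SS e n A B, ‖EE g ξ‖ₑ ^ 2 ≤ ∫⁻ y in A, G y := by
    have hm1 : Measurable ((SS e n A B).indicator fun ξ => ‖EE g ξ‖ₑ ^ 2) :=
      ((EE_meas hgm).enorm.pow_const 2).indicator hSm
    rw [← lintegral_indicator hSm, lint_E3 e _ hm1, ← lintegral_indicator hA]
    refine lintegral_mono fun y => ?_
    by_cases hy : y ∈ A
    · rw [indicator_of_mem hy]
      exact lintegral_mono fun s => indicator_le_self _ _ _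
    · have : ∀ s : ℝ, (SS e n A B).indicator (fun ξ => ‖EE g ξ‖ₑ ^ 2) (pt e y s) = 0 := by
        intro s
        refine indicator_of_notMem (fun h => hy ?_) _
        have h2 := h.1
        rwa [yc_pt] at h2
      simp_rw [this]
      simp
  refine h1.trans ?_
  have hpq : m.HolderConjugate (m / (m - 1)) := Real.HolderConjugate.conjExponent hm
  have h2 := ENNReal.lintegral_mul_le_Lp_mul_Lq (volume.restrict A) hpq hGm.aemeasurable
    (measurable_one (α := ℝ≥0∞) (β := E 2)).aemeasurable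
  simp only [Pi.mul_apply, Pi.one_apply, mul_one, ENNReal.one_rpow, lintegral_const, one_mul,
    Measure.restrict_apply_univ] at h2
  refine h2.trans ?_
  rw [mul_comm]
  refine mul_le_mul' (le_of_eq ?_) ?_
  · congr 1
    field_simp
  · exact ENNReal.rpow_le_rpow (setLIntegral_le_lintegral _ _) (by positivity)

/-- the bound through the slabs -/
theorem Ms_slab (n : E 3) (hn : n ≠ 0) {A : Set (E 2)} {B : Set ℝ}
    (hB : MeasurableSet B) {g : E 2 → ℂ} (hg : Integrable g) (s μ : ℝ) (hμ : 0 < μ)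
    (hs : |s| = 1) (hgV : ∀ x, g x ≠ 0 → μ ≤ s * ell n x) :
    ∫⁻ ξ in SS e n A B, ‖EE g ξ‖ₑ ^ 2 ≤
      ENNReal.ofReal ((2 * Real.pi) ^ 3) * (volume B *
        (ENNReal.ofReal (1 / μ) * ∫⁻ x, ‖g x‖ₑ ^ 2)) := by
  have h1 := slabEE n hn s (B.indicator 1) (measurable_one.indicator hB) g hg μ hμ hs hgV
  rw [lintegral_indicator_one hB] at h1
  refine le_trans ?_ h1
  have hBm : MeasurableSet {ξ : E 3 | (⟪n, ξ⟫ : ℝ) ∈ B} :=
    (measurable_const.inner measurable_id) hB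
  calc ∫⁻ ξ in SS e n A B, ‖EE g ξ‖ₑ ^ 2 ≤ ∫⁻ ξ in {ξ : E 3 | (⟪n, ξ⟫ : ℝ) ∈ B}, ‖EE g ξ‖ₑ ^ 2 :=
        lintegral_mono_set fun ξ hξ => hξ.2
    _ = ∫⁻ ξ, B.indicator 1 (⟪n, ξ⟫ : ℝ) * ‖EE g ξ‖ₑ ^ 2 := by
        rw [← lintegral_indicator hBm]
        refine lintegral_congr fun ξ => ?_
        by_cases hξ : (⟪n, ξ⟫ : ℝ) ∈ B
        · rw [indicator_of_mem hξ, indicator_of_mem (show ξ ∈ {ξ : E 3 | (⟪n, ξ⟫ : ℝ) ∈ B} from hξ)]
          simp
        · rw [indicator_of_notMem hξ,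
            indicator_of_notMem (show ξ ∉ {ξ : E 3 | (⟪n, ξ⟫ : ℝ) ∈ B} from hξ), zero_mul]

/-- optimisation of the splitting height -/
theorem opt {m a b F : ℝ} (hm : 1 < m) (ha : 0 < a) (hb : 0 < b) (hF : 0 < F) :
    ∃ t : ℝ, 0 < t ∧
      a * (t ^ (1 / (m - 1)) * F) ^ ((m - 1) / (2 * m)) ≤
        a ^ (m / (2 * m - 1)) * b ^ ((m - 1) / (2 * m - 1)) * F ^ ((m - 1) / (2 * m - 1)) ∧
      b * (t ^ (-(1 / (m - 1))) * F) ^ ((1 : ℝ) / 2) ≤
        a ^ (m / (2 * m - 1)) * b ^ ((m - 1) / (2 * m - 1)) * F ^ ((m - 1) / (2 * m - 1)) := by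
  have hm1 : 0 < m - 1 := by linarith
  have hm2 : 0 < 2 * m - 1 := by linarith
  have hm0 : 0 < m := by linarith
  have hm1' : m - 1 ≠ 0 := hm1.ne'
  have hm2' : 2 * m - 1 ≠ 0 := hm2.ne'
  set θ : ℝ := b / a * F ^ (1 / (2 * m)) with hθ
  have hθ0 : 0 < θ := by positivity
  refine ⟨θ ^ (2 * m * (m - 1) / (2 * m - 1)), Real.rpow_pos_of_pos hθ0 _, ?_, ?_⟩
  · apply le_of_eq
    rw [Real.mul_rpow (by positivity) hF.le, ← Real.rpow_mul hθ0.le, ← Real.rpow_mul hθ0.le, hθ,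
      Real.mul_rpow (by positivity) (by positivity), ← Real.rpow_mul hF.le,
      Real.div_rpow hb.le ha.le]
    have e1 : 2 * m * (m - 1) / (2 * m - 1) * (1 / (m - 1)) * ((m - 1) / (2 * m)) =
        (m - 1) / (2 * m - 1) := by field_simp
    rw [e1]
    have e2 : a ^ (m / (2 * m - 1)) = a / a ^ ((m - 1) / (2 * m - 1)) := by
      rw [eq_div_iff (by positivity), ← Real.rpow_add ha]
      have : m / (2 * m - 1) + (m - 1) / (2 * m - 1) = 1 := by
        rw [← add_div, div_eq_one_iff_eq hm2']; ring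
      rw [this, Real.rpow_one]
    have e3 : F ^ ((m - 1) / (2 * m - 1)) =
        F ^ (1 / (2 * m) * ((m - 1) / (2 * m - 1))) * F ^ ((m - 1) / (2 * m)) := by
      rw [← Real.rpow_add hF]
      congr 1
      rw [div_mul_div_comm, div_add_div _ _ (by positivity) (by positivity),
        div_eq_div_iff hm2' (by positivity)]
      ring
    rw [e2, e3]
    ring
  · apply le_of_eq
    rw [Real.mul_rpow (by positivity) hF.le, ← Real.rpow_mul hθ0.le, ← Real.rpow_mul hθ0.le, hθ,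
      Real.mul_rpow (by positivity) (by positivity), ← Real.rpow_mul hF.le,
      Real.div_rpow hb.le ha.le]
    have e1 : 2 * m * (m - 1) / (2 * m - 1) * -(1 / (m - 1)) * (1 / 2) =
        -(m / (2 * m - 1)) := by field_simp
    rw [e1, Real.rpow_neg hb.le, Real.rpow_neg ha.le]
    have e2 : b ^ ((m - 1) / (2 * m - 1)) = b / b ^ (m / (2 * m - 1)) := by
      rw [eq_div_iff (by positivity), ← Real.rpow_add hb]
      have : (m - 1) / (2 * m - 1) + m / (2 * m - 1) = 1 := by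
        rw [← add_div, div_eq_one_iff_eq hm2']; ring
      rw [this, Real.rpow_one]
    have e3 : F ^ ((m - 1) / (2 * m - 1)) =
        F ^ (1 / (2 * m) * -(m / (2 * m - 1))) * F ^ ((1 : ℝ) / 2) := by
      rw [← Real.rpow_add hF]
      congr 1
      rw [mul_neg, div_mul_div_comm, ← sub_eq_neg_add, div_sub_div _ _ (by norm_num) (by positivity),
        div_eq_div_iff hm2' (by positivity)]
      ring
    rw [e2, e3]
    field_simp

/-- **interpolation of one piece** -/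
theorem interp {m : ℝ} (hm : 1 < m) (S : Set (E 3)) {g : E 2 → ℂ} (hgm : Measurable g)
    (hg : Integrable g) (a b : ℝ≥0∞) (ha0 : a ≠ 0) (hat : a ≠ ∞) (hb0 : b ≠ 0) (hbt : b ≠ ∞)
    (hA : ∀ T : Set (E 2), MeasurableSet T → Ms S (T.indicator g) ≤
      a * (∫⁻ x, ‖T.indicator g x‖ₑ ^ (2 * (m / (m - 1)))) ^ ((m - 1) / (2 * m)))
    (hB : ∀ T : Set (E 2), MeasurableSet T → Ms S (T.indicator g) ≤
      b * (∫⁻ x, ‖T.indicator g x‖ₑ ^ 2) ^ (1 / 2 : ℝ)) :
    Ms S g ≤ 2 * (a ^ (m / (2 * m - 1)) * b ^ ((m - 1) / (2 * m - 1)) *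
      (∫⁻ x, ‖g x‖ₑ ^ ((2 * m - 1) / (m - 1))) ^ ((m - 1) / (2 * m - 1))) := by
  have hm1 : 0 < m - 1 := by linarith
  have hm2 : 0 < 2 * m - 1 := by linarith
  have hm0 : 0 < m := by linarith
  set Q : ℝ := (2 * m - 1) / (m - 1) with hQ
  have hQ0 : 0 < Q := by positivity
  set F : ℝ≥0∞ := ∫⁻ x, ‖g x‖ₑ ^ Q with hF
  by_cases hF0 : F = 0
  · have h1 : g =ᵐ[volume] 0 := by
      have h2 := (lintegral_eq_zero_iff (hgm.enorm.pow_const Q)).1 hF0
      filter_upwards [h2] with x hx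
      simp only [Pi.zero_apply] at hx
      have h3 := (ENNReal.rpow_eq_zero_iff_of_pos hQ0).1 hx
      simpa using h3
    rw [Ms_zero S h1]
    exact zero_le
  by_cases hFt : F = ∞
  · rw [hFt, ENNReal.top_rpow_of_pos (by positivity), ENNReal.mul_top, ENNReal.mul_top (by norm_num)]
    · exact le_top
    · refine mul_ne_zero ?_ ?_
      · exact (ENNReal.rpow_pos (pos_iff_ne_zero.2 ha0) hat).ne'
      · exact (ENNReal.rpow_pos (pos_iff_ne_zero.2 hb0) hbt).ne'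
  obtain ⟨t, ht, h1, h2⟩ := opt hm (ENNReal.toReal_pos ha0 hat) (ENNReal.toReal_pos hb0 hbt)
    (ENNReal.toReal_pos hF0 hFt)
  set T : Set (E 2) := {x | ‖g x‖ ≤ t} with hT
  have hTm : MeasurableSet T := measurableSet_le hgm.norm measurable_const
  have hlow : ∫⁻ x, ‖T.indicator g x‖ₑ ^ (2 * (m / (m - 1))) ≤
      ENNReal.ofReal (t ^ (1 / (m - 1))) * F := by
    rw [hF, ← lintegral_const_mul' _ _ ENNReal.ofReal_ne_top]
    refine lintegral_mono fun x => ?_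
    by_cases hx : x ∈ T
    · rw [indicator_of_mem hx]
      have h3 : ‖g x‖ₑ ^ (2 * (m / (m - 1))) = ‖g x‖ₑ ^ (1 / (m - 1)) * ‖g x‖ₑ ^ Q := by
        rw [← ENNReal.rpow_add_of_nonneg _ _ (by positivity) hQ0.le]
        congr 1
        rw [hQ]
        field_simp
        ring
      rw [h3, ← ENNReal.ofReal_rpow_of_nonneg ht.le (by positivity)]
      gcongr
      rw [← ofReal_norm]
      exact ENNReal.ofReal_le_ofReal hx
    · rw [indicator_of_notMem hx, enorm_zero, ENNReal.zero_rpow_of_pos (by positivity)]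
      exact zero_le
  have hhigh : ∫⁻ x, ‖Tᶜ.indicator g x‖ₑ ^ 2 ≤ ENNReal.ofReal (t ^ (-(1 / (m - 1)))) * F := by
    rw [hF, ← lintegral_const_mul' _ _ ENNReal.ofReal_ne_top]
    refine lintegral_mono fun x => ?_
    by_cases hx : x ∈ Tᶜ
    · rw [indicator_of_mem hx]
      have hx' : t < ‖g x‖ := not_le.1 hx
      have hgx : 0 < ‖g x‖ := ht.trans hx'
      rw [← ofReal_norm, ENNReal.ofReal_rpow_of_pos hgx, ← ENNReal.ofReal_pow hgx.le,
        ← ENNReal.ofReal_mul (by positivity)]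
      apply ENNReal.ofReal_le_ofReal
      have h3 : ‖g x‖ ^ 2 = ‖g x‖ ^ (-(1 / (m - 1))) * ‖g x‖ ^ Q := by
        rw [← Real.rpow_add hgx, ← Real.rpow_natCast]
        congr 1
        rw [hQ]
        push_cast
        field_simp
        ring
      rw [h3]
      gcongr ?_ * _
      exact Real.rpow_le_rpow_of_nonpos ht hx'.le (neg_nonpos.2 (by positivity))
    · rw [indicator_of_notMem hx, enorm_zero]
      simp
  have hFr : F = ENNReal.ofReal F.toReal := (ENNReal.ofReal_toReal hFt).symm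
  have har : a = ENNReal.ofReal a.toReal := (ENNReal.ofReal_toReal hat).symm
  have hbr : b = ENNReal.ofReal b.toReal := (ENNReal.ofReal_toReal hbt).symm
  have hap := ENNReal.toReal_pos ha0 hat
  have hbp := ENNReal.toReal_pos hb0 hbt
  have hFp := ENNReal.toReal_pos hF0 hFt
  have hval : a ^ (m / (2 * m - 1)) * b ^ ((m - 1) / (2 * m - 1)) * F ^ ((m - 1) / (2 * m - 1)) =
      ENNReal.ofReal (a.toReal ^ (m / (2 * m - 1)) * b.toReal ^ ((m - 1) / (2 * m - 1)) *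
        F.toReal ^ ((m - 1) / (2 * m - 1))) := by
    rw [ENNReal.ofReal_mul (by positivity), ENNReal.ofReal_mul (by positivity),
      ← ENNReal.ofReal_rpow_of_pos hap, ← ENNReal.ofReal_rpow_of_pos hbp,
      ← ENNReal.ofReal_rpow_of_pos hFp, ← har, ← hbr, ← hFr]
  have hM1 : Ms S (T.indicator g) ≤ a ^ (m / (2 * m - 1)) * b ^ ((m - 1) / (2 * m - 1)) *
      F ^ ((m - 1) / (2 * m - 1)) := by
    refine (hA T hTm).trans ?_
    rw [hval]
    refine le_trans ?_ (ENNReal.ofReal_le_ofReal h1)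
    rw [ENNReal.ofReal_mul hap.le, ← har, ← ENNReal.ofReal_rpow_of_pos (by positivity),
      ENNReal.ofReal_mul (by positivity), ← hFr]
    gcongr
  have hM2 : Ms S (Tᶜ.indicator g) ≤ a ^ (m / (2 * m - 1)) * b ^ ((m - 1) / (2 * m - 1)) *
      F ^ ((m - 1) / (2 * m - 1)) := by
    refine (hB _ hTm.compl).trans ?_
    rw [hval]
    refine le_trans ?_ (ENNReal.ofReal_le_ofReal h2)
    rw [ENNReal.ofReal_mul hbp.le, ← hbr, ← ENNReal.ofReal_rpow_of_pos (by positivity),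
      ENNReal.ofReal_mul (by positivity), ← hFr]
    gcongr
  calc Ms S g ≤ Ms S (T.indicator g) + Ms S (Tᶜ.indicator g) := Ms_split S hgm hg hTm
    _ ≤ _ := by
        rw [two_mul]
        exact add_le_add hM1 hM2

end Pool.Agent.K4H46.CW
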