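import Mathlib
import Pool.Agent.K4H46.CW.BAS

set_option autoImplicit false

/-! Summation over the dyadic strips. -/

namespace Pool.Agent.K4H46.CW

open MeasureTheory Set Complex
open scoped ENNReal NNReal RealInnerProductSpace
open Pool.Agent.K4H46.RX

/-- the part of `f` on the strip `δ < s ell ≤ 2 δ` -/
noncomputable def pc (f : E 2 → ℂ) (n : E 3) (s δ : ℝ) : E 2 → ℂ :=
  ({x | δ < s * ell n x ∧ s * ell n x ≤ 2 * δ} : Set (E 2)).indicator f

/-- the part of `f` on the strip `|ell| ≤ 2 δ` -/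
noncomputable def tl (f : E 2 → ℂ) (n : E 3) (δ : ℝ) : E 2 → ℂ :=
  ({x | |ell n x| ≤ 2 * δ} : Set (E 2)).indicator f

theorem pc_set (n : E 3) (s δ : ℝ) :
    MeasurableSet {x : E 2 | δ < s * ell n x ∧ s * ell n x ≤ 2 * δ} := by
  have h : Measurable fun x : E 2 => s * ell n x := (ell_cont n).measurable.const_mul s
  exact (measurableSet_lt measurable_const h).inter (measurableSet_le h measurable_const)

theorem tl_set (n : E 3) (δ : ℝ) : MeasurableSet {x : E 2 | |ell n x| ≤ 2 * δ} :=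
  measurableSet_le (ell_cont n).abs.measurable measurable_const

theorem ell_le {n : E 3} (hn : n 0 ^ 2 + n 1 ^ 2 + n 2 ^ 2 = 1) {x : E 2} (hx : ‖x‖ ≤ 1 / 2) :
    |ell n x| ≤ 2 := by
  have h1 : (n 0 * x 0 + n 1 * x 1) ^ 2 ≤ (n 0 ^ 2 + n 1 ^ 2) * (x 0 ^ 2 + x 1 ^ 2) := by
    nlinarith [sq_nonneg (n 0 * x 1 - n 1 * x 0)]
  have h2 : x 0 ^ 2 + x 1 ^ 2 ≤ 1 / 4 := by
    rw [← norm_sq_E2]
    nlinarith [norm_nonneg x]
  have h3 : (n 0 * x 0 + n 1 * x 1) ^ 2 ≤ 1 / 4 := by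
    have : 0 ≤ n 0 ^ 2 + n 1 ^ 2 := by positivity
    nlinarith [sq_nonneg (n 2)]
  have h4 : |n 0 * x 0 + n 1 * x 1| ≤ 1 / 2 := by
    apply abs_le_of_sq_le_sq _ (by norm_num)
    nlinarith
  have h5 : |n 2| ≤ 1 := by
    apply abs_le_of_sq_le_sq _ (by norm_num)
    nlinarith [sq_nonneg (n 0), sq_nonneg (n 1)]
  unfold ell
  have h6 := abs_sub (n 2) (2 * (n 0 * x 0 + n 1 * x 1))
  rw [abs_mul, abs_two] at h6
  linarith

theorem step (S : Set (E 3)) (n : E 3) {f : E 2 → ℂ} (hfm : Measurable f) (hf : Integrable f)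
    (δ : ℝ) (hδ : 0 < δ) :
    Ms S (tl f n δ) ≤ Ms S (pc f n 1 δ) + Ms S (pc f n (-1) δ) + Ms S (tl f n (δ / 2)) := by
  have h1 := Ms_split S (g := tl f n δ) (hfm.indicator (tl_set n δ)) (hf.indicator (tl_set n δ))
    (T := {x | |ell n x| ≤ 2 * (δ / 2)}) (tl_set n (δ / 2))
  have e1 : ({x | |ell n x| ≤ 2 * (δ / 2)} : Set (E 2)).indicator (tl f n δ) = tl f n (δ / 2) := by
    unfold tl
    rw [indicator_indicator]
    congr 1
    ext x
    simp only [mem_inter_iff, mem_ofPred_eq, and_iff_left_iff_imp]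
    intro h
    linarith
  set R : E 2 → ℂ := ({x | |ell n x| ≤ 2 * (δ / 2)} : Set (E 2))ᶜ.indicator (tl f n δ) with hR
  have hRm : Measurable R := (hfm.indicator (tl_set n δ)).indicator (tl_set n (δ / 2)).compl
  have hRi : Integrable R := (hf.indicator (tl_set n δ)).indicator (tl_set n (δ / 2)).compl
  have hTm : MeasurableSet {x : E 2 | 0 < ell n x} :=
    measurableSet_lt measurable_const (ell_cont n).measurable
  have h2 := Ms_split S (g := R) hRm hRi (T := {x | 0 < ell n x}) hTm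
  have e2 : ({x | 0 < ell n x} : Set (E 2)).indicator R = pc f n 1 δ := by
    rw [hR]
    unfold tl pc
    rw [indicator_indicator, indicator_indicator]
    congr 1
    ext x
    simp only [mem_inter_iff, mem_ofPred_eq, mem_compl_iff, not_le, one_mul]
    constructor
    · rintro ⟨⟨h3, h4⟩, h5⟩
      rw [abs_of_pos h3] at h4 h5
      exact ⟨by linarith, h5⟩
    · rintro ⟨h3, h4⟩
      have h5 : 0 < ell n x := by linarith
      rw [abs_of_pos h5]
      exact ⟨⟨h5, by linarith⟩, h4⟩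
  have e3 : ({x | 0 < ell n x} : Set (E 2))ᶜ.indicator R = pc f n (-1) δ := by
    rw [hR]
    unfold tl pc
    rw [indicator_indicator, indicator_indicator]
    congr 1
    ext x
    simp only [mem_inter_iff, mem_ofPred_eq, mem_compl_iff, not_le, not_lt, neg_mul, one_mul]
    constructor
    · rintro ⟨⟨h3, h4⟩, h5⟩
      rw [abs_of_nonpos h3] at h4 h5
      exact ⟨by linarith, h5⟩
    · rintro ⟨h3, h4⟩
      have h5 : ell n x ≤ 0 := by linarith
      rw [abs_of_nonpos h5]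
      exact ⟨⟨h5, by linarith⟩, h4⟩
  rw [e1] at h1
  rw [e2, e3] at h2
  calc Ms S (tl f n δ) ≤ Ms S (tl f n (δ / 2)) + Ms S R := h1
    _ ≤ Ms S (tl f n (δ / 2)) + (Ms S (pc f n 1 δ) + Ms S (pc f n (-1) δ)) := by gcongr
    _ = _ := by ring

theorem sum_strips (S : Set (E 3)) (hS : volume S ≠ ∞) {n : E 3}
    (hn : n 0 ^ 2 + n 1 ^ 2 + n 2 ^ 2 = 1) {f : E 2 → ℂ} (hfm : Measurable f)
    (hf : Integrable f) (hfU : ∀ x, x ∉ Metric.ball (0 : E 2) (1 / 2) → f x = 0) (K : ℝ≥0∞)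
    (ε : ℝ) (h : ∀ (j : ℕ) (s : ℝ), |s| = 1 →
      Ms S (pc f n s ((1 / 2) ^ j)) ≤ K * (ENNReal.ofReal ((1 / 2) ^ j)) ^ ε) :
    Ms S f ≤ 2 * K * (1 - (ENNReal.ofReal (1 / 2)) ^ ε)⁻¹ := by
  have htl0 : tl f n 1 = f := by
    unfold tl
    ext x
    by_cases hx : x ∈ Metric.ball (0 : E 2) (1 / 2)
    · rw [indicator_of_mem]
      show |ell n x| ≤ 2 * 1
      rw [mul_one]
      exact ell_le hn (mem_ball_zero_iff.1 hx).le
    · rw [hfU x hx]
      exact indicator_apply_eq_zero.2 fun _ => hfU x hx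
  set a : ℝ≥0∞ := (ENNReal.ofReal (1 / 2)) ^ ε with ha
  have hpow : ∀ j : ℕ, (ENNReal.ofReal ((1 / 2) ^ j)) ^ ε = a ^ j := by
    intro j
    rw [ha, ENNReal.ofReal_pow (by norm_num), ← ENNReal.rpow_natCast, ← ENNReal.rpow_mul,
      ← ENNReal.rpow_natCast, ← ENNReal.rpow_mul, mul_comm]
  have hind : ∀ J : ℕ, Ms S f ≤ 2 * K * (∑ j ∈ Finset.range J, a ^ j) +
      Ms S (tl f n ((1 / 2) ^ J)) := by
    intro J
    induction J with
    | zero =>
      rw [pow_zero, htl0]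
      simp
    | succ J ih =>
      have h1 := step S n hfm hf ((1 / 2) ^ J) (by positivity)
      have h2 := h J 1 (by norm_num)
      have h3 := h J (-1) (by norm_num)
      rw [hpow] at h2 h3
      have h4 : ((1 : ℝ) / 2) ^ J / 2 = (1 / 2) ^ (J + 1) := by rw [pow_succ]; ring
      rw [h4] at h1
      calc Ms S f ≤ 2 * K * (∑ j ∈ Finset.range J, a ^ j) + Ms S (tl f n ((1 / 2) ^ J)) := ih
        _ ≤ 2 * K * (∑ j ∈ Finset.range J, a ^ j) +
            (K * a ^ J + K * a ^ J + Ms S (tl f n ((1 / 2) ^ (J + 1)))) := by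
            gcongr
            exact h1.trans (by gcongr)
        _ = _ := by
            rw [Finset.sum_range_succ]
            ring
  have hgeo : ∀ J : ℕ, ∑ j ∈ Finset.range J, a ^ j ≤ (1 - a)⁻¹ := by
    intro J
    rw [← ENNReal.tsum_geometric]
    exact ENNReal.sum_le_tsum _
  have htail : Filter.Tendsto (fun J : ℕ => Ms S (tl f n ((1 / 2) ^ J))) Filter.atTop (nhds 0) := by
    have h1 : Filter.Tendsto (fun J : ℕ => ∫⁻ x, ‖tl f n ((1 / 2) ^ J) x‖ₑ) Filter.atTop
        (nhds 0) := by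
      have h2 : ∀ J : ℕ, ∫⁻ x, ‖tl f n ((1 / 2) ^ J) x‖ₑ =
          ∫⁻ x in (Metric.ball (0 : E 2) (1 / 2) ∩ {x | |ell n x| ≤ 2 * (1 / 2) ^ J}), ‖f x‖ₑ := by
        intro J
        set V : Set (E 2) := Metric.ball (0 : E 2) (1 / 2) ∩ {x | |ell n x| ≤ 2 * (1 / 2) ^ J}
          with hV
        rw [← lintegral_indicator (Metric.isOpen_ball.measurableSet.inter (tl_set n _))]
        refine lintegral_congr fun x => ?_
        unfold tl
        by_cases hx : x ∈ Metric.ball (0 : E 2) (1 / 2)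
        · by_cases hx2 : x ∈ {x : E 2 | |ell n x| ≤ 2 * (1 / 2) ^ J}
          · rw [indicator_of_mem hx2, indicator_of_mem (show x ∈ V from ⟨hx, hx2⟩)]
          · rw [indicator_of_notMem hx2, indicator_of_notMem (fun h : x ∈ V => hx2 h.2),
              enorm_zero]
        · rw [indicator_of_notMem (fun h : x ∈ V => hx h.1)]
          have : (({x | |ell n x| ≤ 2 * (1 / 2) ^ J} : Set (E 2)).indicator f x) = 0 :=
            indicator_apply_eq_zero.2 fun _ => hfU x hx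
          rw [this, enorm_zero]
      simp_rw [h2]
      refine tendsto_setLIntegral_zero hf.2.ne ?_
      have h3 : Filter.Tendsto (fun J : ℕ => ENNReal.ofReal (4 * (2 * (1 / 2) ^ J))) Filter.atTop
          (nhds 0) := by
        rw [← ENNReal.ofReal_zero]
        apply ENNReal.tendsto_ofReal
        have h4 : Filter.Tendsto (fun J : ℕ => ((1 : ℝ) / 2) ^ J) Filter.atTop (nhds 0) :=
          tendsto_pow_atTop_nhds_zero_of_lt_one (by norm_num) (by norm_num)
        have h5 := (h4.const_mul 2).const_mul 4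
        simpa using h5
      refine tendsto_of_tendsto_of_tendsto_of_le_of_le tendsto_const_nhds h3 (fun _ => zero_le)
        (fun J => strip_meas hn _ (by positivity))
    have h6 : ∀ J : ℕ, Ms S (tl f n ((1 / 2) ^ J)) ≤
        (volume S) ^ (1 / 2 : ℝ) * ∫⁻ x, ‖tl f n ((1 / 2) ^ J) x‖ₑ := by
      intro J
      refine (Ms_le_of_sq (Ms_triv S _)).trans (le_of_eq ?_)
      rw [ENNReal.mul_rpow_of_nonneg _ _ (by norm_num), ← ENNReal.rpow_natCast, ← ENNReal.rpow_mul]
      norm_num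
    have h7 : Filter.Tendsto (fun J : ℕ => (volume S) ^ (1 / 2 : ℝ) *
        ∫⁻ x, ‖tl f n ((1 / 2) ^ J) x‖ₑ) Filter.atTop (nhds 0) := by
      have h8 := ENNReal.Tendsto.const_mul (a := (volume S) ^ (1 / 2 : ℝ)) h1
        (Or.inr (ENNReal.rpow_ne_top_of_nonneg (by norm_num) hS))
      rwa [mul_zero] at h8
    exact tendsto_of_tendsto_of_tendsto_of_le_of_le tendsto_const_nhds h7 (fun _ => zero_le) h6
  have hlim : Filter.Tendsto (fun J : ℕ => 2 * K * (1 - a)⁻¹ + Ms S (tl f n ((1 / 2) ^ J)))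
      Filter.atTop (nhds (2 * K * (1 - a)⁻¹ + 0)) := htail.const_add _
  rw [add_zero] at hlim
  refine ge_of_tendsto' hlim fun J => (hind J).trans ?_
  gcongr
  exact hgeo J

end Pool.Agent.K4H46.CW
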