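import Mathlib
import Pool.Agent.K4H46.CW.SUM

set_option autoImplicit false

/-! Estimates of the pieces. -/

namespace Pool.Agent.K4H46.CW

open MeasureTheory Set Complex
open scoped ENNReal NNReal RealInnerProductSpace
open Pool.Agent.K4H46.RX

theorem norm_one {n : E 3} (hn : n 0 ^ 2 + n 1 ^ 2 + n 2 ^ 2 = 1) : ‖n‖ = 1 := by
  have : ‖n‖ ^ 2 = 1 := by
    rw [EuclideanSpace.norm_sq_eq, Fin.sum_univ_three]
    simpa using hn
  nlinarith [norm_nonneg n]

theorem mu_le (e : OrthonormalBasis (Fin 3) ℝ (E 3)) {n : E 3}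
    (hn : n 0 ^ 2 + n 1 ^ 2 + n 2 ^ 2 = 1) : |(⟪n, e 2⟫ : ℝ)| ≤ 1 := by
  have h1 := abs_real_inner_le_norm n (e 2)
  rw [norm_one hn, e.norm_eq_one, one_mul] at h1
  exact h1

/-- **the bound through the lines**, for functions on a strip -/
theorem lineb {m : ℝ} (hm : 2 < m) : ∃ C : ℝ≥0∞, C ≠ ∞ ∧ C ≠ 0 ∧
    ∀ (e : OrthonormalBasis (Fin 3) ℝ (E 3)) (n : E 3), n 0 ^ 2 + n 1 ^ 2 + n 2 ^ 2 = 1 →
      (⟪n, e 2⟫ : ℝ) ≠ 0 → ∀ (A : Set (E 2)) (B : Set ℝ), MeasurableSet A → MeasurableSet B →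
      ∀ g : E 2 → ℂ, Measurable g → Integrable g →
      (∀ x, x ∉ Metric.ball (0 : E 2) (1 / 2) → g x = 0) → ∀ δ : ℝ, 0 < δ → δ ≤ 1 →
      (∀ x, g x ≠ 0 → |ell n x| ≤ 2 * δ) →
      ∫⁻ ξ in SS e n A B, ‖EE g ξ‖ₑ ^ 2 ≤
        C * (volume A ^ (1 - 1 / m) * ENNReal.ofReal (1 / |(⟪n, e 2⟫ : ℝ)|) ^ (1 - 1 / m) *
          ENNReal.ofReal δ ^ (1 / m)) *
          (∫⁻ x, ‖g x‖ₑ ^ (2 * (m / (m - 1)))) ^ ((m - 1) / m) := by
  have hm0 : 0 < m := by linarith
  have hm1 : 0 < m - 1 := by linarith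
  have hm1' : 1 - 1 / m = (m - 1) / m := by field_simp
  have hmm : 0 < (m - 1) / m := by positivity
  obtain ⟨C1, hC1⟩ := mixed (q := m) hm
  obtain ⟨C2, hC2⟩ := mixed_strip (q := m) hm
  set C : ℝ≥0∞ := ((C1 : ℝ≥0∞) + C2) ^ (1 / m) * 8 + 1 with hC
  refine ⟨C, ?_, ?_, ?_⟩
  · rw [hC]
    refine ENNReal.add_ne_top.2 ⟨ENNReal.mul_ne_top (ENNReal.rpow_ne_top_of_nonneg (by positivity)
      (ENNReal.add_ne_top.2 ⟨ENNReal.coe_ne_top, ENNReal.coe_ne_top⟩)) (by norm_num), by norm_num⟩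
  · rw [hC]
    exact (lt_of_lt_of_le one_pos le_add_self).ne'
  intro e n hn hne A B hA hB g hgm hgi hgb δ hδ hδ1 hgs
  set μ0 : ℝ := |(⟪n, e 2⟫ : ℝ)| with hμ0
  have hμpos : 0 < μ0 := abs_pos.2 hne
  have hbase := Ms_plane e (m := m) (by linarith) n hA hB hgm
  set F : ℝ≥0∞ := ∫⁻ x, ‖g x‖ₑ ^ (2 * (m / (m - 1))) with hF
  rw [← hm1']
  rcases le_or_gt (8 * δ) μ0 with hcase | hcase
  · -- narrow strips
    set U : Set (E 2) := Metric.ball (0 : E 2) (1 / 2) ∩ {x | |ell n x| ≤ 2 * δ} with hU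
    have hUm : MeasurableSet U := Metric.isOpen_ball.measurableSet.inter (tl_set n δ)
    have h1 := hC2 e U hUm inter_subset_left g hgm hgi (fun x hx => by
      by_contra h0
      apply hx
      refine ⟨?_, hgs x h0⟩
      by_contra hb
      exact h0 (hgb x hb)) n hn (2 * δ) (by positivity) (by linarith) (fun x hx => hx.2)
    refine hbase.trans ?_
    have h2 : (∫⁻ y : E 2, (∫⁻ s : ℝ, ‖EE g (pt e y s)‖ₑ ^ 2) ^ m) ^ (1 / m) ≤
        (C2 * (ENNReal.ofReal (2 * δ) * ENNReal.ofReal (1 / μ0) ^ (m - 1) * F ^ (m - 1))) ^ (1 / m) :=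
      ENNReal.rpow_le_rpow h1 (by positivity)
    refine (mul_le_mul_right h2 _).trans ?_
    rw [ENNReal.mul_rpow_of_nonneg _ _ (by positivity), ENNReal.mul_rpow_of_nonneg _ _ (by positivity),
      ENNReal.mul_rpow_of_nonneg _ _ (by positivity), ← ENNReal.rpow_mul, ← ENNReal.rpow_mul,
      show (m - 1) * (1 / m) = 1 - 1 / m by field_simp]
    have h3 : (C2 : ℝ≥0∞) ^ (1 / m) * ENNReal.ofReal (2 * δ) ^ (1 / m) ≤
        C * ENNReal.ofReal δ ^ (1 / m) := by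
      rw [ENNReal.ofReal_mul (by norm_num), ENNReal.mul_rpow_of_nonneg _ _ (by positivity),
        ← mul_assoc]
      gcongr
      rw [hC]
      refine le_trans ?_ le_self_add
      gcongr
      · exact le_add_self
      · calc ENNReal.ofReal 2 ^ (1 / m) ≤ ENNReal.ofReal 2 ^ (1 : ℝ) := by
              apply ENNReal.rpow_le_rpow_of_exponent_le
              · rw [← ENNReal.ofReal_one]
                exact ENNReal.ofReal_le_ofReal (by norm_num)
              · rw [div_le_one hm0]; linarith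
          _ ≤ 8 := by
              rw [ENNReal.rpow_one]
              simp
              norm_num
    calc volume A ^ (1 - 1 / m) * ((C2 : ℝ≥0∞) ^ (1 / m) * (ENNReal.ofReal (2 * δ) ^ (1 / m) *
          ENNReal.ofReal (1 / μ0) ^ (1 - 1 / m) * F ^ (1 - 1 / m)))
        = ((C2 : ℝ≥0∞) ^ (1 / m) * ENNReal.ofReal (2 * δ) ^ (1 / m)) * (volume A ^ (1 - 1 / m) *
          ENNReal.ofReal (1 / μ0) ^ (1 - 1 / m)) * F ^ (1 - 1 / m) := by ring
      _ ≤ (C * ENNReal.ofReal δ ^ (1 / m)) * (volume A ^ (1 - 1 / m) *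
          ENNReal.ofReal (1 / μ0) ^ (1 - 1 / m)) * F ^ (1 - 1 / m) := by gcongr
      _ = _ := by ring
  · -- wide strips
    have h1 := hC1 e (Metric.ball (0 : E 2) (1 / 2)) Metric.isOpen_ball.measurableSet
      Subset.rfl g hgm hgi hgb
    refine hbase.trans ?_
    have h2 : (∫⁻ y : E 2, (∫⁻ s : ℝ, ‖EE g (pt e y s)‖ₑ ^ 2) ^ m) ^ (1 / m) ≤
        (C1 * F ^ (m - 1)) ^ (1 / m) :=
      ENNReal.rpow_le_rpow h1 (by positivity)
    refine (mul_le_mul_right h2 _).trans ?_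
    rw [ENNReal.mul_rpow_of_nonneg _ _ (by positivity), ← ENNReal.rpow_mul,
      show (m - 1) * (1 / m) = 1 - 1 / m by field_simp]
    have h3 : (C1 : ℝ≥0∞) ^ (1 / m) ≤
        C * (ENNReal.ofReal (1 / μ0) ^ (1 - 1 / m) * ENNReal.ofReal δ ^ (1 / m)) := by
      have h4 : (1 : ℝ≥0∞) ≤ 8 * (ENNReal.ofReal (1 / μ0) ^ (1 - 1 / m) *
          ENNReal.ofReal δ ^ (1 / m)) := by
        have h5 : (1 : ℝ) ≤ 8 * ((1 / μ0) ^ (1 - 1 / m) * δ ^ (1 / m)) := by
          have h6 : δ ^ (1 - 1 / m) ≤ δ ^ (1 / m) := by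
            apply Real.rpow_le_rpow_of_exponent_ge hδ hδ1
            rw [le_sub_iff_add_le, ← add_div, div_le_one hm0]
            linarith
          have h7 : (1 : ℝ) ≤ (8 * (1 / μ0 * δ)) ^ (1 - 1 / m) := by
            apply Real.one_le_rpow _ (by rw [hm1']; positivity)
            rw [one_div, ← div_eq_inv_mul, ← mul_div_assoc, le_div_iff₀ hμpos]
            linarith
          have h8 : (8 * (1 / μ0 * δ)) ^ (1 - 1 / m) ≤
              8 * ((1 / μ0) ^ (1 - 1 / m) * δ ^ (1 - 1 / m)) := by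
            rw [Real.mul_rpow (by norm_num) (by positivity),
              Real.mul_rpow (by positivity) hδ.le]
            gcongr
            calc (8 : ℝ) ^ (1 - 1 / m) ≤ 8 ^ (1 : ℝ) := by
                  apply Real.rpow_le_rpow_of_exponent_le (by norm_num)
                  have : 0 < 1 / m := by positivity
                  linarith
              _ = 8 := Real.rpow_one 8
          calc (1 : ℝ) ≤ 8 * ((1 / μ0) ^ (1 - 1 / m) * δ ^ (1 - 1 / m)) := h7.trans h8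
            _ ≤ _ := by gcongr
        rw [ENNReal.ofReal_rpow_of_pos (by positivity), ENNReal.ofReal_rpow_of_pos hδ,
          ← ENNReal.ofReal_mul (by positivity), show (8 : ℝ≥0∞) = ENNReal.ofReal 8 by simp,
          ← ENNReal.ofReal_mul (by norm_num), ← ENNReal.ofReal_one]
        exact ENNReal.ofReal_le_ofReal h5
      calc (C1 : ℝ≥0∞) ^ (1 / m) = (C1 : ℝ≥0∞) ^ (1 / m) * 1 := (mul_one _).symm
        _ ≤ ((C1 : ℝ≥0∞) + C2) ^ (1 / m) * (8 * (ENNReal.ofReal (1 / μ0) ^ (1 - 1 / m) *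
          ENNReal.ofReal δ ^ (1 / m))) := by
            gcongr
            exact le_self_add
        _ = (((C1 : ℝ≥0∞) + C2) ^ (1 / m) * 8) * (ENNReal.ofReal (1 / μ0) ^ (1 - 1 / m) *
          ENNReal.ofReal δ ^ (1 / m)) := by ring
        _ ≤ _ := by
            gcongr
            exact le_self_add
    calc volume A ^ (1 - 1 / m) * ((C1 : ℝ≥0∞) ^ (1 / m) * F ^ (1 - 1 / m))
        ≤ volume A ^ (1 - 1 / m) * ((C * (ENNReal.ofReal (1 / μ0) ^ (1 - 1 / m) *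
          ENNReal.ofReal δ ^ (1 / m))) * F ^ (1 - 1 / m)) := by gcongr
      _ = _ := by ring

/-- Hölder's inequality on a strip -/
theorem holder_strip {n : E 3} (hn : n 0 ^ 2 + n 1 ^ 2 + n 2 ^ 2 = 1) {p q : ℝ} (hp : 0 < p)
    (hpq : p ≤ q) {g : E 2 → ℂ} (hgm : Measurable g)
    (hgb : ∀ x, x ∉ Metric.ball (0 : E 2) (1 / 2) → g x = 0) {δ : ℝ} (hδ : 0 < δ)
    (hgs : ∀ x, g x ≠ 0 → |ell n x| ≤ 2 * δ) :
    (∫⁻ x, ‖g x‖ₑ ^ p) ^ (1 / p) ≤ 8 ^ (1 / p) * ENNReal.ofReal δ ^ (1 / p - 1 / q) *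
      (∫⁻ x, ‖g x‖ₑ ^ q) ^ (1 / q) := by
  have hq : 0 < q := lt_of_lt_of_le hp hpq
  set U : Set (E 2) := Metric.ball (0 : E 2) (1 / 2) ∩ {x | |ell n x| ≤ 2 * δ} with hU
  have hUm : MeasurableSet U := Metric.isOpen_ball.measurableSet.inter (tl_set n δ)
  have hgU : ∀ x, x ∉ U → g x = 0 := by
    intro x hx
    by_contra h0
    apply hx
    refine ⟨?_, hgs x h0⟩
    by_contra hb
    exact h0 (hgb x hb)
  have hres : ∀ r : ℝ, 0 < r → ∫⁻ x, ‖g x‖ₑ ^ r = ∫⁻ x in U, ‖g x‖ₑ ^ r := by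
    intro r hr
    rw [← lintegral_indicator hUm]
    refine lintegral_congr fun x => ?_
    by_cases hx : x ∈ U
    · rw [indicator_of_mem hx]
    · rw [indicator_of_notMem hx, hgU x hx, enorm_zero, ENNReal.zero_rpow_of_pos hr]
  have hvol : volume U ≤ ENNReal.ofReal (8 * δ) := by
    refine (strip_meas hn (2 * δ) (by positivity)).trans ?_
    apply ENNReal.ofReal_le_ofReal
    linarith
  have h1 := eLpNorm_le_eLpNorm_mul_rpow_measure_univ (μ := volume.restrict U)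
    (ENNReal.ofReal_le_ofReal hpq) hgm.aestronglyMeasurable
  rw [eLpNorm_eq_lintegral_rpow_enorm_toReal (by simpa using hp) ENNReal.ofReal_ne_top,
    eLpNorm_eq_lintegral_rpow_enorm_toReal (by simpa using hq) ENNReal.ofReal_ne_top,
    ENNReal.toReal_ofReal hp.le, ENNReal.toReal_ofReal hq.le, Measure.restrict_apply_univ,
    ← hres p hp, ← hres q hq] at h1
  refine h1.trans ?_
  have hexp : 0 ≤ 1 / p - 1 / q := by
    rw [sub_nonneg]
    exact one_div_le_one_div_of_le hp hpq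
  calc (∫⁻ x, ‖g x‖ₑ ^ q) ^ (1 / q) * volume U ^ (1 / p - 1 / q)
      ≤ (∫⁻ x, ‖g x‖ₑ ^ q) ^ (1 / q) * (8 ^ (1 / p) * ENNReal.ofReal δ ^ (1 / p - 1 / q)) := by
        gcongr
        calc volume U ^ (1 / p - 1 / q) ≤ ENNReal.ofReal (8 * δ) ^ (1 / p - 1 / q) :=
              ENNReal.rpow_le_rpow hvol hexp
          _ = 8 ^ (1 / p - 1 / q) * ENNReal.ofReal δ ^ (1 / p - 1 / q) := by
              rw [ENNReal.ofReal_mul (by norm_num), ENNReal.mul_rpow_of_nonneg _ _ hexp]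
              simp
          _ ≤ _ := by
              gcongr
              · norm_num
              · have : 0 < 1 / q := by positivity
                linarith
    _ = _ := by ring

end Pool.Agent.K4H46.CW
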