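import Mathlib
import Pool.Agent.K4H46.CW.PCE

set_option autoImplicit false

/-! The estimates for product sets. -/

namespace Pool.Agent.K4H46.CW

open MeasureTheory Set Complex
open scoped ENNReal NNReal RealInnerProductSpace
open Pool.Agent.K4H46.RX

/-- the hypotheses on the function -/
structure Ok (f : E 2 → ℂ) : Prop where
  meas : Measurable f
  int : Integrable f
  supp : ∀ x, x ∉ Metric.ball (0 : E 2) (1 / 2) → f x = 0

theorem Ok.ind {f : E 2 → ℂ} (hf : Ok f) {T : Set (E 2)} (hT : MeasurableSet T) :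
    Ok (T.indicator f) :=
  ⟨hf.meas.indicator hT, hf.int.indicator hT, fun x hx =>
    indicator_apply_eq_zero.2 fun _ => hf.supp x hx⟩

/-- the `L^q` norm -/
noncomputable def Nq (q : ℝ) (f : E 2 → ℂ) : ℝ≥0∞ := (∫⁻ x, ‖f x‖ₑ ^ q) ^ (1 / q)

theorem Nq_ind {q : ℝ} (hq : 0 < q) (f : E 2 → ℂ) (T : Set (E 2)) :
    Nq q (T.indicator f) ≤ Nq q f := by
  unfold Nq
  refine ENNReal.rpow_le_rpow (lintegral_mono fun x => ?_) (by positivity)
  refine ENNReal.rpow_le_rpow ?_ hq.le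
  by_cases hx : x ∈ T
  · rw [indicator_of_mem hx]
  · rw [indicator_of_notMem hx, enorm_zero]; exact zero_le

theorem holder_pc {n : E 3} (hn : n 0 ^ 2 + n 1 ^ 2 + n 2 ^ 2 = 1) {p q : ℝ} (hp : 0 < p)
    (hpq : p ≤ q) {f : E 2 → ℂ} (hf : Ok f) {s δ : ℝ} (hs : |s| = 1) (hδ : 0 < δ) :
    Nq p (pc f n s δ) ≤ 8 ^ (1 / p) * ENNReal.ofReal δ ^ (1 / p - 1 / q) * Nq q f := by
  have hg : Ok (pc f n s δ) := hf.ind (pc_set n s δ)
  have h1 := holder_strip hn hp hpq hg.meas hg.supp hδ (fun x hx => by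
    have hx' : x ∈ {x : E 2 | δ < s * ell n x ∧ s * ell n x ≤ 2 * δ} := by
      by_contra h
      exact hx (indicator_of_notMem h _)
    have h2 : |ell n x| = |s * ell n x| := by rw [abs_mul, hs, one_mul]
    rw [h2, abs_of_pos (hδ.trans hx'.1)]
    exact hx'.2)
  refine h1.trans ?_
  gcongr
  exact Nq_ind (lt_of_lt_of_le hp hpq) f _

theorem holder_all {n : E 3} (hn : n 0 ^ 2 + n 1 ^ 2 + n 2 ^ 2 = 1) {p q : ℝ} (hp : 0 < p)
    (hpq : p ≤ q) {f : E 2 → ℂ} (hf : Ok f) : Nq p f ≤ 8 ^ (1 / p) * Nq q f := by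
  have h1 := holder_strip hn hp hpq hf.meas hf.supp one_pos (fun x hx => by
    rw [mul_one]
    apply ell_le hn
    by_contra h
    apply hx
    apply hf.supp
    intro hb
    exact h (mem_ball_zero_iff.1 hb).le)
  rw [ENNReal.ofReal_one, ENNReal.one_rpow, mul_one] at h1
  exact h1

/-- the volume of the product set -/
theorem SS_vol (e : OrthonormalBasis (Fin 3) ℝ (E 3)) (n : E 3) (hne : (⟪n, e 2⟫ : ℝ) ≠ 0)
    {A : Set (E 2)} {B : Set ℝ} (hA : MeasurableSet A) (hB : MeasurableSet B) :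
    volume (SS e n A B) = ENNReal.ofReal (1 / |(⟪n, e 2⟫ : ℝ)|) * (volume A * volume B) := by
  rw [← lintegral_indicator_one (SS_meas e n hA hB)]
  have h1 := prod_lint e n hne (A.indicator 1) (B.indicator 1) (measurable_one.indicator hA)
    (measurable_one.indicator hB)
  rw [lintegral_indicator_one hA, lintegral_indicator_one hB] at h1
  rw [← h1]
  refine lintegral_congr fun ξ => ?_
  by_cases h2 : yc e ξ ∈ A <;> by_cases h3 : (⟪n, ξ⟫ : ℝ) ∈ B <;>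
    simp [indicator, SS, h2, h3]

theorem E1 {m q : ℝ} (hm : 2 < m) (hq : 3 < q) (hmq : 2 / q < m / (2 * m - 1)) :
    ∃ C : ℝ≥0∞, C ≠ ∞ ∧ ∀ (e : OrthonormalBasis (Fin 3) ℝ (E 3)) (n : E 3),
      n 0 ^ 2 + n 1 ^ 2 + n 2 ^ 2 = 1 → (⟪n, e 2⟫ : ℝ) ≠ 0 →
      ∀ (A : Set (E 2)) (B : Set ℝ), MeasurableSet A → MeasurableSet B →
      volume A ≠ 0 → volume A ≠ ∞ → volume B ≠ 0 → volume B ≠ ∞ → ∀ f : E 2 → ℂ, Ok f →
      Ms (SS e n A B) f ≤ C * (volume (SS e n A B) ^ ((m - 1) / (2 * m - 1) / 2) * Nq q f) := by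
  have hm0 : 0 < m := by linarith
  have hm1 : 0 < m - 1 := by linarith
  have hm2 : 0 < 2 * m - 1 := by linarith
  have hq0 : 0 < q := by linarith
  set κ : ℝ := (m - 1) / (2 * m - 1) with hκ
  have hκ0 : 0 < κ := by positivity
  set Q : ℝ := (2 * m - 1) / (m - 1) with hQ
  have hQ0 : 0 < Q := by positivity
  have hQκ : 1 / Q = κ := by rw [hQ, hκ, one_div_div]
  have hQq : Q ≤ q := by
    rw [hQ, div_le_iff₀ hm1]
    nlinarith
  obtain ⟨CL, hCLt, hCL0, hCL⟩ := lineb hm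
  set ε : ℝ := (m / (2 * m - 1) - 2 / q) / 2 with hε
  have hε0 : 0 < ε := by
    rw [hε]
    linarith
  set P3 : ℝ≥0∞ := ENNReal.ofReal ((2 * Real.pi) ^ 3) with hP3
  have hP30 : P3 ≠ 0 := by
    rw [hP3]
    simp only [ne_eq, ENNReal.ofReal_eq_zero, not_le]
    positivity
  have hP3t : P3 ≠ ∞ := ENNReal.ofReal_ne_top
  set K0 : ℝ≥0∞ := 2 * (CL ^ (m / (2 * (2 * m - 1))) * P3 ^ (κ / 2) * 8 ^ κ) with hK0
  have hK0t : K0 ≠ ∞ := by
    rw [hK0]
    refine ENNReal.mul_ne_top (by norm_num) (ENNReal.mul_ne_top (ENNReal.mul_ne_top ?_ ?_) ?_)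
    · exact ENNReal.rpow_ne_top_of_nonneg (by positivity) hCLt
    · exact ENNReal.rpow_ne_top_of_nonneg (by positivity) hP3t
    · exact ENNReal.rpow_ne_top_of_nonneg hκ0.le (by norm_num)
  set a2 : ℝ≥0∞ := ENNReal.ofReal (1 / 2) ^ ε with ha2
  have ha2lt : a2 < 1 := by
    rw [ha2]
    apply ENNReal.rpow_lt_one _ hε0
    rw [← ENNReal.ofReal_one]
    exact (ENNReal.ofReal_lt_ofReal_iff one_pos).2 (by norm_num)
  refine ⟨2 * K0 * (1 - a2)⁻¹, ?_, ?_⟩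
  · refine ENNReal.mul_ne_top (ENNReal.mul_ne_top (by norm_num) hK0t) ?_
    rw [ENNReal.inv_ne_top]
    exact (tsub_pos_of_lt ha2lt).ne'
  intro e n hn hne A B hA hB hA0 hAt hB0 hBt f hf
  set μ0 : ℝ := |(⟪n, e 2⟫ : ℝ)| with hμ0
  have hμpos : 0 < μ0 := abs_pos.2 hne
  set S := SS e n A B with hS
  have hvol := SS_vol e n hne hA hB
  rw [← hS] at hvol
  set X : ℝ≥0∞ := ENNReal.ofReal (1 / μ0) with hX
  have hX0 : X ≠ 0 := by
    rw [hX]
    simp only [ne_eq, ENNReal.ofReal_eq_zero, not_le]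
    positivity
  have hXt : X ≠ ∞ := ENNReal.ofReal_ne_top
  have hSt : volume S ≠ ∞ := by
    rw [hvol]
    exact ENNReal.mul_ne_top hXt (ENNReal.mul_ne_top hAt hBt)
  have hpiece : ∀ (j : ℕ) (s : ℝ), |s| = 1 → Ms S (pc f n s ((1 / 2) ^ j)) ≤
      (K0 * (volume S ^ (κ / 2) * Nq q f)) * (ENNReal.ofReal ((1 / 2) ^ j)) ^ ε := by
    intro j s hs
    set δ : ℝ := (1 / 2) ^ j with hδ
    have hδ0 : 0 < δ := by positivity
    have hδ1 : δ ≤ 1 := pow_le_one₀ (by norm_num) (by norm_num)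
    set d : ℝ≥0∞ := ENNReal.ofReal δ with hd
    have hd0 : d ≠ 0 := by
      rw [hd]
      simp only [ne_eq, ENNReal.ofReal_eq_zero, not_le]
      exact hδ0
    have hdt : d ≠ ∞ := ENNReal.ofReal_ne_top
    have hdinv : ENNReal.ofReal (1 / δ) = d⁻¹ := by
      rw [one_div, ENNReal.ofReal_inv_of_pos hδ0]
    set g := pc f n s δ with hg
    have hgOk : Ok g := hf.ind (pc_set n s δ)
    have hgmem : ∀ x, g x ≠ 0 → x ∈ {x : E 2 | δ < s * ell n x ∧ s * ell n x ≤ 2 * δ} := by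
      intro x hx
      by_contra h
      exact hx (indicator_of_notMem h _)
    set a : ℝ≥0∞ := (CL * (volume A ^ (1 - 1 / m) * X ^ (1 - 1 / m) * d ^ (1 / m))) ^ (1 / 2 : ℝ)
      with ha
    set b : ℝ≥0∞ := (P3 * (volume B * d⁻¹)) ^ (1 / 2 : ℝ) with hb
    have hpos : ∀ (x : ℝ≥0∞) (y : ℝ), x ≠ 0 → x ≠ ∞ → x ^ y ≠ 0 ∧ x ^ y ≠ ∞ := fun x y h0 ht =>
      ⟨(ENNReal.rpow_pos (pos_iff_ne_zero.2 h0) ht).ne', ENNReal.rpow_ne_top_of_ne_zero h0 ht⟩
    have ha_in : CL * (volume A ^ (1 - 1 / m) * X ^ (1 - 1 / m) * d ^ (1 / m)) ≠ 0 ∧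
        CL * (volume A ^ (1 - 1 / m) * X ^ (1 - 1 / m) * d ^ (1 / m)) ≠ ∞ := by
      constructor
      · exact mul_ne_zero hCL0 (mul_ne_zero (mul_ne_zero (hpos _ _ hA0 hAt).1 (hpos _ _ hX0 hXt).1)
          (hpos _ _ hd0 hdt).1)
      · exact ENNReal.mul_ne_top hCLt (ENNReal.mul_ne_top (ENNReal.mul_ne_top (hpos _ _ hA0 hAt).2
          (hpos _ _ hX0 hXt).2) (hpos _ _ hd0 hdt).2)
    have hb_in : P3 * (volume B * d⁻¹) ≠ 0 ∧ P3 * (volume B * d⁻¹) ≠ ∞ := by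
      constructor
      · exact mul_ne_zero hP30 (mul_ne_zero hB0 (ENNReal.inv_ne_zero.2 hdt))
      · exact ENNReal.mul_ne_top hP3t (ENNReal.mul_ne_top hBt (ENNReal.inv_ne_top.2 hd0))
    have hint := interp (m := m) (by linarith) S hgOk.meas hgOk.int a b
      (hpos _ _ ha_in.1 ha_in.2).1 (hpos _ _ ha_in.1 ha_in.2).2
      (hpos _ _ hb_in.1 hb_in.2).1 (hpos _ _ hb_in.1 hb_in.2).2
      (by
        intro T hT
        have hh : Ok (T.indicator g) := hgOk.ind hT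
        have h1 := hCL e n hn hne A B hA hB (T.indicator g) hh.meas hh.int hh.supp δ hδ0 hδ1
          (by
            intro x hx
            have h2 : g x ≠ 0 := by
              intro h3
              apply hx
              exact indicator_apply_eq_zero.2 fun _ => h3
            have h4 := hgmem x h2
            have h5 : |ell n x| = |s * ell n x| := by rw [abs_mul, hs, one_mul]
            rw [h5, abs_of_pos (hδ0.trans h4.1)]
            exact h4.2)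
        refine (Ms_le_of_sq h1).trans (le_of_eq ?_)
        rw [ENNReal.mul_rpow_of_nonneg _ _ (by norm_num), ← ENNReal.rpow_mul
          (∫⁻ x, ‖T.indicator g x‖ₑ ^ (2 * (m / (m - 1))))]
        congr 2
        field_simp)
      (by
        intro T hT
        have hh : Ok (T.indicator g) := hgOk.ind hT
        have h1 := Ms_slab e (A := A) n (by
          intro h0
          apply hne
          rw [h0, inner_zero_left]) hB hh.int s δ hδ0 hs (by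
            intro x hx
            have h2 : g x ≠ 0 := by
              intro h3
              apply hx
              exact indicator_apply_eq_zero.2 fun _ => h3
            exact (hgmem x h2).1.le)
        refine (Ms_le_of_sq h1).trans (le_of_eq ?_)
        rw [hdinv, hb, ← ENNReal.mul_rpow_of_nonneg _ _ (by norm_num)]
        congr 1
        rw [hP3]
        ring)
    have hhold := holder_pc hn hQ0 hQq hf hs hδ0
    rw [← hg] at hhold
    have hQint : (∫⁻ x, ‖g x‖ₑ ^ ((2 * m - 1) / (m - 1))) ^ ((m - 1) / (2 * m - 1)) = Nq Q g := by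
      unfold Nq
      rw [hQκ]
    rw [hQint] at hint
    refine hint.trans ?_
    -- powers of a and b
    have ea : a ^ (m / (2 * m - 1)) = CL ^ (m / (2 * (2 * m - 1))) *
        (volume A ^ (κ / 2) * X ^ (κ / 2) * d ^ (1 / (2 * (2 * m - 1)))) := by
      rw [ha, ← ENNReal.rpow_mul, ENNReal.mul_rpow_of_nonneg _ _ (by positivity),
        ENNReal.mul_rpow_of_nonneg _ _ (by positivity), ENNReal.mul_rpow_of_nonneg _ _ (by positivity),
        ← ENNReal.rpow_mul, ← ENNReal.rpow_mul, ← ENNReal.rpow_mul]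
      have e1 : (1 : ℝ) / 2 * (m / (2 * m - 1)) = m / (2 * (2 * m - 1)) := by
        rw [div_mul_div_comm, one_mul]
      have e2 : (1 - 1 / m) * (1 / 2 * (m / (2 * m - 1))) = κ / 2 := by
        rw [hκ]
        have := hm2.ne'
        field_simp
      have e3 : 1 / m * (1 / 2 * (m / (2 * m - 1))) = 1 / (2 * (2 * m - 1)) := by
        have := hm2.ne'
        field_simp
      rw [e2, e3, e1]
    have eb : b ^ κ = P3 ^ (κ / 2) * (volume B ^ (κ / 2) * d ^ (-(κ / 2))) := by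
      rw [hb, ← ENNReal.rpow_mul, ENNReal.mul_rpow_of_nonneg _ _ (by positivity),
        ENNReal.mul_rpow_of_nonneg _ _ (by positivity), ENNReal.inv_rpow, ← ENNReal.rpow_neg]
      have e1 : (1 : ℝ) / 2 * κ = κ / 2 := by ring
      rw [e1]
    have hkeyd : d ^ (1 / (2 * (2 * m - 1))) * d ^ (-(κ / 2)) * d ^ (κ - 1 / q) = d ^ ε := by
      rw [← ENNReal.rpow_add _ _ hd0 hdt, ← ENNReal.rpow_add _ _ hd0 hdt]
      congr 1
      rw [hε, hκ]
      have := hm2.ne'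
      field_simp
      ring
    calc 2 * (a ^ (m / (2 * m - 1)) * b ^ ((m - 1) / (2 * m - 1)) * Nq Q g)
        ≤ 2 * (a ^ (m / (2 * m - 1)) * b ^ κ *
            (8 ^ (1 / Q) * d ^ (1 / Q - 1 / q) * Nq q f)) := by gcongr
      _ = K0 * ((volume A ^ (κ / 2) * X ^ (κ / 2) * volume B ^ (κ / 2)) * Nq q f) *
            (d ^ (1 / (2 * (2 * m - 1))) * d ^ (-(κ / 2)) * d ^ (κ - 1 / q)) := by
          rw [ea, eb, hQκ, hK0]
          ring
      _ = (K0 * (volume S ^ (κ / 2) * Nq q f)) * d ^ ε := by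
          rw [hkeyd, hvol, ENNReal.mul_rpow_of_nonneg _ _ (by positivity),
            ENNReal.mul_rpow_of_nonneg _ _ (by positivity)]
          ring
  have hfin := sum_strips S hSt hn hf.meas hf.int hf.supp _ ε hpiece
  refine hfin.trans (le_of_eq ?_)
  rw [ha2]
  ring

theorem E4 {q : ℝ} (hq : 3 < q) :
    ∃ C : ℝ≥0∞, C ≠ ∞ ∧ ∀ (e : OrthonormalBasis (Fin 3) ℝ (E 3)) (n : E 3),
      n 0 ^ 2 + n 1 ^ 2 + n 2 ^ 2 = 1 → (⟪n, e 2⟫ : ℝ) ≠ 0 →
      ∀ (A : Set (E 2)) (B : Set ℝ), MeasurableSet A → MeasurableSet B →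
      volume (SS e n A B) ≠ ∞ → ∀ f : E 2 → ℂ, Ok f →
      Ms (SS e n A B) f ≤ C * ((volume B * volume (SS e n A B)) ^ (1 / 4 : ℝ) * Nq q f) := by
  have hq0 : 0 < q := by linarith
  set ε : ℝ := 1 / 2 - 1 / q with hε
  have hε0 : 0 < ε := by
    rw [hε, sub_pos]
    exact one_div_lt_one_div_of_lt (by norm_num) (by linarith)
  set P3 : ℝ≥0∞ := ENNReal.ofReal ((2 * Real.pi) ^ 3) with hP3
  have hP3t : P3 ≠ ∞ := ENNReal.ofReal_ne_top
  set K0 : ℝ≥0∞ := P3 ^ (1 / 4 : ℝ) * 8 with hK0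
  have hK0t : K0 ≠ ∞ :=
    ENNReal.mul_ne_top (ENNReal.rpow_ne_top_of_nonneg (by norm_num) hP3t) (by norm_num)
  set a2 : ℝ≥0∞ := ENNReal.ofReal (1 / 2) ^ ε with ha2
  have ha2lt : a2 < 1 := by
    rw [ha2]
    apply ENNReal.rpow_lt_one _ hε0
    rw [← ENNReal.ofReal_one]
    exact (ENNReal.ofReal_lt_ofReal_iff one_pos).2 (by norm_num)
  refine ⟨2 * K0 * (1 - a2)⁻¹, ?_, ?_⟩
  · refine ENNReal.mul_ne_top (ENNReal.mul_ne_top (by norm_num) hK0t) ?_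
    rw [ENNReal.inv_ne_top]
    exact (tsub_pos_of_lt ha2lt).ne'
  intro e n hn hne A B hA hB hSt f hf
  set S := SS e n A B with hS
  have hpiece : ∀ (j : ℕ) (s : ℝ), |s| = 1 → Ms S (pc f n s ((1 / 2) ^ j)) ≤
      (K0 * ((volume B * volume S) ^ (1 / 4 : ℝ) * Nq q f)) * (ENNReal.ofReal ((1 / 2) ^ j)) ^ ε := by
    intro j s hs
    set δ : ℝ := (1 / 2) ^ j with hδ
    have hδ0 : 0 < δ := by positivity
    set d : ℝ≥0∞ := ENNReal.ofReal δ with hd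
    have hd0 : d ≠ 0 := by
      rw [hd]
      simp only [ne_eq, ENNReal.ofReal_eq_zero, not_le]
      exact hδ0
    have hdt : d ≠ ∞ := ENNReal.ofReal_ne_top
    have hdinv : ENNReal.ofReal (1 / δ) = d⁻¹ := by
      rw [one_div, ENNReal.ofReal_inv_of_pos hδ0]
    set g := pc f n s δ with hg
    have hgOk : Ok g := hf.ind (pc_set n s δ)
    have hgmem : ∀ x, g x ≠ 0 → x ∈ {x : E 2 | δ < s * ell n x ∧ s * ell n x ≤ 2 * δ} := by
      intro x hx
      by_contra h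
      exact hx (indicator_of_notMem h _)
    have h2n : (∫⁻ x, ‖g x‖ₑ ^ 2) ^ (1 / 2 : ℝ) = Nq 2 g := by
      unfold Nq
      simp only [ENNReal.rpow_two]
    have h1n : (∫⁻ x, ‖g x‖ₑ) = Nq 1 g := by
      unfold Nq
      simp only [ENNReal.rpow_one, div_one]
    have hP : Ms S g ≤ P3 ^ (1 / 2 : ℝ) * volume B ^ (1 / 2 : ℝ) * 8 ^ (1 / 2 : ℝ) *
        d ^ (-(1 / q)) * Nq q f := by
      have h1 := Ms_slab e (A := A) n (by
          intro h0
          apply hne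
          rw [h0, inner_zero_left]) hB hgOk.int s δ hδ0 hs (fun x hx => (hgmem x hx).1.le)
      refine (Ms_le_of_sq h1).trans ?_
      rw [hdinv, ENNReal.mul_rpow_of_nonneg _ _ (by norm_num), ENNReal.mul_rpow_of_nonneg _ _ (by norm_num),
        ENNReal.mul_rpow_of_nonneg _ _ (by norm_num), h2n, ENNReal.inv_rpow, ← ENNReal.rpow_neg]
      have h3 := holder_pc hn (p := 2) (by norm_num) (by linarith : (2 : ℝ) ≤ q) hf hs hδ0
      calc P3 ^ (1 / 2 : ℝ) * (volume B ^ (1 / 2 : ℝ) * (d ^ (-(1 / 2 : ℝ)) * Nq 2 g))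
          ≤ P3 ^ (1 / 2 : ℝ) * (volume B ^ (1 / 2 : ℝ) * (d ^ (-(1 / 2 : ℝ)) *
            (8 ^ (1 / 2 : ℝ) * d ^ (1 / 2 - 1 / q) * Nq q f))) := by gcongr
        _ = P3 ^ (1 / 2 : ℝ) * volume B ^ (1 / 2 : ℝ) * 8 ^ (1 / 2 : ℝ) *
            (d ^ (-(1 / 2 : ℝ)) * d ^ (1 / 2 - 1 / q)) * Nq q f := by ring
        _ = _ := by
            rw [← ENNReal.rpow_add _ _ hd0 hdt]
            congr 3
            ring
    have hR : Ms S g ≤ volume S ^ (1 / 2 : ℝ) * 8 * d ^ (1 - 1 / q) * Nq q f := by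
      refine (Ms_le_of_sq (Ms_triv S g)).trans ?_
      rw [ENNReal.mul_rpow_of_nonneg _ _ (by norm_num), ← ENNReal.rpow_natCast, ← ENNReal.rpow_mul,
        h1n]
      have h3 := holder_pc hn (p := 1) one_pos (by linarith : (1 : ℝ) ≤ q) hf hs hδ0
      have h4 : ((2 : ℕ) : ℝ) * (1 / 2) = 1 := by norm_num
      rw [h4, ENNReal.rpow_one]
      calc volume S ^ (1 / 2 : ℝ) * Nq 1 g
          ≤ volume S ^ (1 / 2 : ℝ) * (8 ^ (1 / 1 : ℝ) * d ^ (1 / 1 - 1 / q) * Nq q f) := by gcongr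
        _ = _ := by
            rw [div_one, ENNReal.rpow_one]
            ring
    have hgeo : Ms S g ≤ (P3 ^ (1 / 2 : ℝ) * volume B ^ (1 / 2 : ℝ) * 8 ^ (1 / 2 : ℝ) *
        d ^ (-(1 / q)) * Nq q f) ^ (1 / 2 : ℝ) *
        (volume S ^ (1 / 2 : ℝ) * 8 * d ^ (1 - 1 / q) * Nq q f) ^ (1 / 2 : ℝ) := by
      calc Ms S g = (Ms S g) ^ (1 / 2 : ℝ) * (Ms S g) ^ (1 / 2 : ℝ) := by
            rw [← ENNReal.rpow_add_of_nonneg _ _ (by norm_num) (by norm_num)]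
            norm_num
        _ ≤ _ := by gcongr
    refine hgeo.trans ?_
    rw [ENNReal.mul_rpow_of_nonneg _ _ (by norm_num), ENNReal.mul_rpow_of_nonneg _ _ (by norm_num),
      ENNReal.mul_rpow_of_nonneg _ _ (by norm_num), ENNReal.mul_rpow_of_nonneg _ _ (by norm_num),
      ENNReal.mul_rpow_of_nonneg _ _ (by norm_num), ENNReal.mul_rpow_of_nonneg _ _ (by norm_num),
      ENNReal.mul_rpow_of_nonneg _ _ (by norm_num), ← ENNReal.rpow_mul P3, ← ENNReal.rpow_mul (volume B),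
      ← ENNReal.rpow_mul 8, ← ENNReal.rpow_mul d, ← ENNReal.rpow_mul (volume S), ← ENNReal.rpow_mul d,
      ENNReal.mul_rpow_of_nonneg _ _ (by norm_num)]
    have e1 : (1 : ℝ) / 2 * (1 / 2) = 1 / 4 := by norm_num
    rw [e1]
    have h8 : (8 : ℝ≥0∞) ^ (1 / 4 : ℝ) * 8 ^ (1 / 2 : ℝ) ≤ 8 := by
      rw [← ENNReal.rpow_add_of_nonneg _ _ (by norm_num) (by norm_num)]
      calc (8 : ℝ≥0∞) ^ (1 / 4 + 1 / 2 : ℝ) ≤ 8 ^ (1 : ℝ) :=
            ENNReal.rpow_le_rpow_of_exponent_le (by norm_num) (by norm_num)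
        _ = 8 := ENNReal.rpow_one 8
    have hN : Nq q f ^ (1 / 2 : ℝ) * Nq q f ^ (1 / 2 : ℝ) = Nq q f := by
      rw [← ENNReal.rpow_add_of_nonneg _ _ (by norm_num) (by norm_num)]
      norm_num
    have hdd : d ^ (-(1 / q) * (1 / 2)) * d ^ ((1 - 1 / q) * (1 / 2)) = d ^ ε := by
      rw [← ENNReal.rpow_add _ _ hd0 hdt]
      congr 1
      rw [hε]
      ring
    calc P3 ^ (1 / 4 : ℝ) * volume B ^ (1 / 4 : ℝ) * 8 ^ (1 / 4 : ℝ) * d ^ (-(1 / q) * (1 / 2)) *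
          Nq q f ^ (1 / 2 : ℝ) *
          (volume S ^ (1 / 4 : ℝ) * 8 ^ (1 / 2 : ℝ) * d ^ ((1 - 1 / q) * (1 / 2)) *
            Nq q f ^ (1 / 2 : ℝ))
        = P3 ^ (1 / 4 : ℝ) * (volume B ^ (1 / 4 : ℝ) * volume S ^ (1 / 4 : ℝ)) *
          (8 ^ (1 / 4 : ℝ) * 8 ^ (1 / 2 : ℝ)) *
          (d ^ (-(1 / q) * (1 / 2)) * d ^ ((1 - 1 / q) * (1 / 2))) *
          (Nq q f ^ (1 / 2 : ℝ) * Nq q f ^ (1 / 2 : ℝ)) := by ring
      _ ≤ P3 ^ (1 / 4 : ℝ) * (volume B ^ (1 / 4 : ℝ) * volume S ^ (1 / 4 : ℝ)) * 8 *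
          d ^ ε * Nq q f := by
          rw [hN, hdd]
          gcongr
      _ = _ := by
          rw [hK0]
          ring
  have hfin := sum_strips S hSt hn hf.meas hf.int hf.supp _ ε hpiece
  refine hfin.trans (le_of_eq ?_)
  rw [ha2]
  ring

theorem E3 {q : ℝ} (hq : 3 < q) :
    ∃ C : ℝ≥0∞, C ≠ ∞ ∧ ∀ (e : OrthonormalBasis (Fin 3) ℝ (E 3)) (n : E 3),
      n 0 ^ 2 + n 1 ^ 2 + n 2 ^ 2 = 1 →
      ∀ (A : Set (E 2)) (B : Set ℝ), MeasurableSet A → MeasurableSet B → ∀ f : E 2 → ℂ, Ok f →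
      Ms (SS e n A B) f ≤ C * (volume A ^ (1 / 3 : ℝ) * Nq q f) := by
  obtain ⟨C1, hC1⟩ := mixed (q := 3) (by norm_num)
  refine ⟨(C1 : ℝ≥0∞) ^ (1 / 6 : ℝ) * 8, ENNReal.mul_ne_top
    (ENNReal.rpow_ne_top_of_nonneg (by norm_num) ENNReal.coe_ne_top) (by norm_num), ?_⟩
  intro e n hn A B hA hB f hf
  have h1 := hC1 e (Metric.ball (0 : E 2) (1 / 2)) Metric.isOpen_ball.measurableSet
      Subset.rfl f hf.meas hf.int hf.supp
  have hbase := Ms_plane e (m := 3) (by norm_num) n hA hB hf.meas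
  refine (Ms_le_of_sq hbase).trans ?_
  have hN : ∫⁻ x, ‖f x‖ₑ ^ (2 * ((3 : ℝ) / (3 - 1))) = Nq 3 f ^ (3 : ℝ) := by
    unfold Nq
    rw [← ENNReal.rpow_mul]
    norm_num
  rw [hN] at h1
  have h3 := holder_all hn (p := 3) (by norm_num) hq.le hf
  calc (volume A ^ (1 - 1 / 3 : ℝ) * (∫⁻ y : E 2, (∫⁻ s : ℝ, ‖EE f (pt e y s)‖ₑ ^ 2) ^ (3 : ℝ)) ^
        (1 / 3 : ℝ)) ^ (1 / 2 : ℝ)
      ≤ (volume A ^ (1 - 1 / 3 : ℝ) * (C1 * (Nq 3 f ^ (3 : ℝ)) ^ (3 - 1 : ℝ)) ^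
        (1 / 3 : ℝ)) ^ (1 / 2 : ℝ) := by gcongr
    _ = (C1 : ℝ≥0∞) ^ (1 / 6 : ℝ) * (volume A ^ (1 / 3 : ℝ) * Nq 3 f) := by
        rw [ENNReal.mul_rpow_of_nonneg _ _ (by norm_num), ENNReal.mul_rpow_of_nonneg _ _ (by norm_num),
          ENNReal.mul_rpow_of_nonneg _ _ (by norm_num), ← ENNReal.rpow_mul, ← ENNReal.rpow_mul,
          ← ENNReal.rpow_mul, ← ENNReal.rpow_mul, ← ENNReal.rpow_mul]
        norm_num
        ring
    _ ≤ (C1 : ℝ≥0∞) ^ (1 / 6 : ℝ) * (volume A ^ (1 / 3 : ℝ) * (8 * Nq q f)) := by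
        gcongr
        refine h3.trans ?_
        gcongr
        calc (8 : ℝ≥0∞) ^ (1 / 3 : ℝ) ≤ 8 ^ (1 : ℝ) :=
            ENNReal.rpow_le_rpow_of_exponent_le (by norm_num) (by norm_num)
        _ = 8 := ENNReal.rpow_one 8
    _ = _ := by ring

theorem E2' {q : ℝ} (hq : 3 < q) (S : Set (E 3)) (f : E 2 → ℂ) (hf : Ok f) :
    Ms S f ≤ 8 * (volume S ^ (1 / 2 : ℝ) * Nq q f) := by
  have hn : (EuclideanSpace.single 2 1 : E 3) 0 ^ 2 + (EuclideanSpace.single 2 1 : E 3) 1 ^ 2 +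
      (EuclideanSpace.single 2 1 : E 3) 2 ^ 2 = 1 := by simp
  have h3 := holder_all hn (p := 1) (by norm_num) (by linarith : (1 : ℝ) ≤ q) hf
  have h1n : (∫⁻ x, ‖f x‖ₑ) = Nq 1 f := by
    unfold Nq
    simp only [ENNReal.rpow_one, div_one]
  refine (Ms_le_of_sq (Ms_triv S f)).trans ?_
  rw [ENNReal.mul_rpow_of_nonneg _ _ (by norm_num), ← ENNReal.rpow_natCast, ← ENNReal.rpow_mul,
    h1n]
  have h4 : ((2 : ℕ) : ℝ) * (1 / 2) = 1 := by norm_num
  rw [h4, ENNReal.rpow_one]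
  calc volume S ^ (1 / 2 : ℝ) * Nq 1 f
      ≤ volume S ^ (1 / 2 : ℝ) * (8 ^ (1 / 1 : ℝ) * Nq q f) := by gcongr
    _ = _ := by
        rw [div_one, ENNReal.rpow_one]
        ring

end Pool.Agent.K4H46.CW
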