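import Mathlib
import Pool.Agent.K4H46.CW.SETS

set_option autoImplicit false

/-! From sets to weights. -/

namespace Pool.Agent.K4H46.CW

open MeasureTheory Set Complex
open scoped ENNReal NNReal RealInnerProductSpace
open Pool.Agent.K4H46.RX

/-- a power near zero -/
noncomputable def lo (x : ℝ) (s : ℝ) : ℝ≥0∞ := (Ioc (0 : ℝ) 1).indicator (fun s => ENNReal.ofReal s ^ (-x)) s

/-- a power near infinity -/
noncomputable def hi (x : ℝ) (s : ℝ) : ℝ≥0∞ := (Ioi (1 : ℝ)).indicator (fun s => ENNReal.ofReal s ^ (-x)) s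

theorem lo_meas (x : ℝ) : Measurable (lo x) :=
  (ENNReal.measurable_ofReal.pow_const _).indicator measurableSet_Ioc

theorem hi_meas (x : ℝ) : Measurable (hi x) :=
  (ENNReal.measurable_ofReal.pow_const _).indicator measurableSet_Ioi

theorem lo_fin {x : ℝ} (hx : x < 1) : ∫⁻ s, lo x s ≠ ∞ := by
  unfold lo
  rw [lintegral_indicator measurableSet_Ioc]
  refine ne_top_of_le_ne_top (fin_pow (-x) 1 (by linarith) zero_le_one).ne ?_
  have h1 : ∫⁻ s in Ioc (0 : ℝ) 1, ENNReal.ofReal s ^ (-x) =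
      ∫⁻ s in Ioc (0 : ℝ) 1, ENNReal.ofReal (|s| ^ (-x)) := by
    refine setLIntegral_congr_fun measurableSet_Ioc fun s hs => ?_
    rw [abs_of_pos hs.1, ENNReal.ofReal_rpow_of_pos hs.1]
  rw [h1]
  exact lintegral_mono_set fun s hs => ⟨by linarith [hs.1], hs.2⟩

theorem hi_fin {x : ℝ} (hx : 1 < x) : ∫⁻ s, hi x s ≠ ∞ := by
  unfold hi
  rw [lintegral_indicator measurableSet_Ioi]
  have h1 : ∫⁻ s in Ioi (1 : ℝ), ENNReal.ofReal s ^ (-x) =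
      ∫⁻ s in Ioi (1 : ℝ), ENNReal.ofReal (s ^ (-x)) := by
    refine setLIntegral_congr_fun measurableSet_Ioi fun s hs => ?_
    rw [ENNReal.ofReal_rpow_of_pos (zero_lt_one.trans hs)]
  have h2 : IntegrableOn (fun s : ℝ => s ^ (-x)) (Ioi 1) :=
    integrableOn_Ioi_rpow_of_lt (by linarith) one_pos
  rw [h1, ← ofReal_integral_eq_lintegral_ofReal h2 ((ae_restrict_iff' measurableSet_Ioi).2
      (Filter.Eventually.of_forall fun t ht => Real.rpow_nonneg (zero_lt_one.trans ht).le _))]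
  exact ENNReal.ofReal_ne_top

/-- the exponents in the last region -/
theorem exps {r κ : ℝ} (hr : 1 < r) (hκ : κ < 1 / 2) (hrκ : r * κ < 1) :
    ∃ θ : ℝ, 0 ≤ θ ∧ θ ≤ 1 ∧ r * κ * (1 - θ) + r / 2 * θ < 1 ∧ 1 < r * κ * (1 - θ) + r * θ := by
  rcases le_or_gt (4 / 3) r with h | h
  · have h1 : 0 < 3 / 4 - κ := by linarith
    have h2 : 0 < r * (3 / 4 - κ) := by positivity
    refine ⟨(1 - r * κ) / (r * (3 / 4 - κ)), div_nonneg (by linarith) h2.le, ?_, ?_, ?_⟩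
    · rw [div_le_one h2]; nlinarith
    · have h3 : r * κ * (1 - (1 - r * κ) / (r * (3 / 4 - κ))) + r / 2 * ((1 - r * κ) / (r * (3 / 4 - κ)))
          = r * κ + (1 - r * κ) * ((1 / 2 - κ) / (3 / 4 - κ)) := by
        have : r ≠ 0 := by linarith
        field_simp
        ring
      rw [h3]
      have h4 : (1 / 2 - κ) / (3 / 4 - κ) < 1 := by
        rw [div_lt_one h1]; linarith
      nlinarith
    · have h3 : r * κ * (1 - (1 - r * κ) / (r * (3 / 4 - κ))) + r * ((1 - r * κ) / (r * (3 / 4 - κ)))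
          = r * κ + (1 - r * κ) * ((1 - κ) / (3 / 4 - κ)) := by
        have : r ≠ 0 := by linarith
        field_simp
        ring
      rw [h3]
      have h4 : 1 < (1 - κ) / (3 / 4 - κ) := by
        rw [lt_div_iff₀ h1]; linarith
      nlinarith
  · refine ⟨1, zero_le_one, le_rfl, ?_, ?_⟩ <;> linarith

/-- Chebyshev -/
theorem cheb {α : Type*} [MeasurableSpace α] (μ : Measure α) {u : α → ℝ≥0∞} (hu : Measurable u)
    {r : ℝ} (hr : 0 < r) {M : ℝ≥0∞} (hM : ∫⁻ y, u y ^ r ∂μ ≤ M) {s : ℝ} (hs : 0 < s) :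
    μ {y | ENNReal.ofReal s < u y} ≤ M * ENNReal.ofReal s ^ (-r) := by
  have hs0 : ENNReal.ofReal s ≠ 0 := by
    simp only [ne_eq, ENNReal.ofReal_eq_zero, not_le]
    exact hs
  have h1 : ENNReal.ofReal s ^ r ≠ 0 := (ENNReal.rpow_pos (pos_iff_ne_zero.2 hs0)
    ENNReal.ofReal_ne_top).ne'
  have h2 : ENNReal.ofReal s ^ r ≠ ∞ := ENNReal.rpow_ne_top_of_nonneg hr.le ENNReal.ofReal_ne_top
  have h3 := meas_ge_le_lintegral_div (μ := μ) (hu.pow_const r).aemeasurable h1 h2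
  calc μ {y | ENNReal.ofReal s < u y} ≤ μ {y | ENNReal.ofReal s ^ r ≤ u y ^ r} := by
        refine measure_mono fun y hy => ?_
        exact ENNReal.rpow_le_rpow (le_of_lt hy) hr.le
    _ ≤ (∫⁻ y, u y ^ r ∂μ) / ENNReal.ofReal s ^ r := h3
    _ ≤ M / ENNReal.ofReal s ^ r := by gcongr
    _ = M * ENNReal.ofReal s ^ (-r) := by rw [div_eq_mul_inv, ENNReal.rpow_neg]

theorem rsq (x : ℝ≥0∞) (y z : ℝ) (h : y * 2 = z) : (x ^ y) ^ 2 = x ^ z := by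
  rw [← ENNReal.rpow_natCast, ← ENNReal.rpow_mul]
  congr 1

/-- interpolation of two upper bounds -/
theorem geo2 {x P R : ℝ≥0∞} {θ : ℝ} (h0 : 0 ≤ θ) (h1 : θ ≤ 1) (hP : x ≤ P) (hR : x ≤ R) :
    x ≤ P ^ (1 - θ) * R ^ θ := by
  calc x = x ^ (1 - θ) * x ^ θ := by
        rw [← ENNReal.rpow_add_of_nonneg _ _ (by linarith) h0]
        simp
    _ ≤ _ := by
        have : 0 ≤ 1 - θ := by linarith
        gcongr

/-- the bound for the product of two level sets -/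
theorem level {q : ℝ} (hq : 3 < q) : ∃ (C : ℝ≥0∞) (x1 x3 y3 x4 y4 : ℝ), C ≠ ∞ ∧ x1 < 1 ∧ 1 < x3 ∧
    y3 < 1 ∧ x4 < 1 ∧ 1 < y4 ∧
    ∀ (e : OrthonormalBasis (Fin 3) ℝ (E 3)) (n : E 3), n 0 ^ 2 + n 1 ^ 2 + n 2 ^ 2 = 1 →
      (⟪n, e 2⟫ : ℝ) ≠ 0 → ∀ (u : E 2 → ℝ≥0∞) (w : ℝ → ℝ≥0∞), Measurable u → Measurable w →
      ∫⁻ y, u y ^ (q / (q - 2)) ≤ ENNReal.ofReal |(⟪n, e 2⟫ : ℝ)| →
      ∫⁻ t, w t ^ (q / (q - 2)) ≤ 1 → ∀ f : E 2 → ℂ, Ok f → ∀ s t : ℝ, 0 < s → 0 < t →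
      Ms (SS e n {y | ENNReal.ofReal s < u y} {a | ENNReal.ofReal t < w a}) f ^ 2 ≤
        C * Nq q f ^ 2 * (lo x1 s * lo x1 t + hi (q / (q - 2)) s * hi (q / (q - 2)) t +
          hi x3 s * lo y3 t + lo x4 s * hi y4 t) := by
  have hq2 : 0 < q - 2 := by linarith
  have hq0 : 0 < q := by linarith
  set r : ℝ := q / (q - 2) with hr
  have hr0 : 0 < r := by positivity
  have hr1 : 1 < r := by rw [hr, lt_div_iff₀ hq2]; linarith
  set m : ℝ := (q + 1) / 2 with hm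
  have hm2 : 2 < m := by rw [hm]; linarith
  have h2m : 2 * m - 1 = q := by rw [hm]; ring
  have hm1 : m - 1 = (q - 1) / 2 := by rw [hm]; ring
  set κ : ℝ := (m - 1) / (2 * m - 1) with hκ
  have hκe : κ = (q - 1) / (2 * q) := by
    rw [hκ, h2m, hm1]
    field_simp
  have hκ0 : 0 < κ := by
    rw [hκe]
    have : 0 < q - 1 := by linarith
    positivity
  have hκ2 : κ < 1 / 2 := by
    rw [hκe, div_lt_div_iff₀ (by positivity) (by norm_num)]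
    linarith
  have hrκ : r * κ < 1 := by
    rw [hκe, hr, div_mul_div_comm, div_lt_one (by positivity)]
    nlinarith
  obtain ⟨θ, hθ0, hθ1, hx4, hy4⟩ := exps hr1 hκ2 hrκ
  obtain ⟨C1, hC1t, hC1⟩ := E1 hm2 hq (by
    rw [h2m, hm, div_lt_div_iff₀ hq0 hq0]
    nlinarith)
  obtain ⟨C3, hC3t, hC3⟩ := E3 hq
  obtain ⟨C4, hC4t, hC4⟩ := E4 hq
  set C : ℝ≥0∞ := C1 ^ 2 + 8 ^ 2 + C3 ^ 2 + C4 ^ 2 with hC
  have hCt : C ≠ ∞ := by
    rw [hC]
    exact ENNReal.add_ne_top.2 ⟨ENNReal.add_ne_top.2 ⟨ENNReal.add_ne_top.2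
      ⟨ENNReal.pow_ne_top hC1t, by norm_num⟩, ENNReal.pow_ne_top hC3t⟩, ENNReal.pow_ne_top hC4t⟩
  have hle1 : C1 ^ 2 ≤ C := by
    rw [hC, add_assoc, add_assoc]; exact le_self_add
  have hle2 : (8 : ℝ≥0∞) ^ 2 ≤ C := by
    rw [hC, add_assoc, add_assoc]
    exact le_trans le_self_add le_add_self
  have hle3 : C3 ^ 2 ≤ C := by
    rw [hC, add_assoc]
    exact le_trans le_self_add le_add_self
  have hle4 : C4 ^ 2 ≤ C := le_add_self
  refine ⟨C, r * κ, 1 / r + 2 / 3 * (r - 1 / r), 1 / r, r * κ * (1 - θ) + r / 2 * θ,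
    r * κ * (1 - θ) + r * θ, hCt, hrκ, ?_, ?_, hx4, hy4, ?_⟩
  · have h1 : 0 < 1 / r := by positivity
    have h2 : 1 / r + 2 / 3 * (r - 1 / r) = (2 * r ^ 2 + 1) / (3 * r) := by
      field_simp
      ring
    rw [h2, lt_div_iff₀ (by positivity)]
    nlinarith [mul_pos (sub_pos.2 hr1) (by linarith : 0 < 2 * r - 1)]
  · rw [div_lt_one hr0]; exact hr1
  intro e n hn hne u w hu hw hUr hWr f hf s t hs ht
  set μ0 : ℝ := |(⟪n, e 2⟫ : ℝ)| with hμ0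
  have hμpos : 0 < μ0 := abs_pos.2 hne
  have hμ1 : μ0 ≤ 1 := mu_le e hn
  set A : Set (E 2) := {y | ENNReal.ofReal s < u y} with hA
  set B : Set ℝ := {a | ENNReal.ofReal t < w a} with hB
  have hAm : MeasurableSet A := measurableSet_lt measurable_const hu
  have hBm : MeasurableSet B := measurableSet_lt measurable_const hw
  set σ : ℝ≥0∞ := ENNReal.ofReal s with hσ
  set τ : ℝ≥0∞ := ENNReal.ofReal t with hτ
  have hσ0 : σ ≠ 0 := by
    rw [hσ]; simp only [ne_eq, ENNReal.ofReal_eq_zero, not_le]; exact hs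
  have hτ0 : τ ≠ 0 := by
    rw [hτ]; simp only [ne_eq, ENNReal.ofReal_eq_zero, not_le]; exact ht
  have hσt : σ ≠ ∞ := ENNReal.ofReal_ne_top
  have hτt : τ ≠ ∞ := ENNReal.ofReal_ne_top
  have hpw : ∀ (x : ℝ≥0∞) (y : ℝ), x ≠ 0 → x ≠ ∞ → x ^ y ≠ 0 ∧ x ^ y ≠ ∞ := fun x y h0 ht =>
      ⟨(ENNReal.rpow_pos (pos_iff_ne_zero.2 h0) ht).ne', ENNReal.rpow_ne_top_of_ne_zero h0 ht⟩
  have hvA : volume A ≤ ENNReal.ofReal μ0 * σ ^ (-r) := cheb volume hu hr0 hUr hs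
  have hvA' : volume A ≤ σ ^ (-r) := by
    refine hvA.trans (mul_le_of_le_one_left zero_le ?_)
    rw [← ENNReal.ofReal_one]
    exact ENNReal.ofReal_le_ofReal hμ1
  have hvB : volume B ≤ τ ^ (-r) := by
    have := cheb volume hw hr0 hWr ht
    rwa [one_mul] at this
  have hAt : volume A ≠ ∞ := ne_top_of_le_ne_top (hpw _ _ hσ0 hσt).2 hvA'
  have hBt : volume B ≠ ∞ := ne_top_of_le_ne_top (hpw _ _ hτ0 hτt).2 hvB
  set S := SS e n A B with hS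
  have hvS : volume S ≤ σ ^ (-r) * τ ^ (-r) := by
    rw [hS, SS_vol e n hne hAm hBm]
    calc ENNReal.ofReal (1 / μ0) * (volume A * volume B)
        ≤ ENNReal.ofReal (1 / μ0) * ((ENNReal.ofReal μ0 * σ ^ (-r)) * τ ^ (-r)) := by gcongr
      _ = (ENNReal.ofReal (1 / μ0) * ENNReal.ofReal μ0) * (σ ^ (-r) * τ ^ (-r)) := by ring
      _ = _ := by
          rw [← ENNReal.ofReal_mul (by positivity), one_div, inv_mul_cancel₀ hμpos.ne',
            ENNReal.ofReal_one, one_mul]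
  have hSt : volume S ≠ ∞ := ne_top_of_le_ne_top
    (ENNReal.mul_ne_top (hpw _ _ hσ0 hσt).2 (hpw _ _ hτ0 hτt).2) hvS
  set N := Nq q f with hN
  -- the four bounds
  have b1 : Ms S f ^ 2 ≤ C * N ^ 2 * (σ ^ (-(r * κ)) * τ ^ (-(r * κ))) := by
    by_cases hz : volume S = 0
    · have : Ms S f = 0 := by
        unfold Ms
        rw [Measure.restrict_eq_zero.2 hz, lintegral_zero_measure, ENNReal.zero_rpow_of_pos (by norm_num)]
      rw [this]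
      simp
    · have hA0 : volume A ≠ 0 := by
        intro h
        apply hz
        rw [hS, SS_vol e n hne hAm hBm, h]
        simp
      have hB0 : volume B ≠ 0 := by
        intro h
        apply hz
        rw [hS, SS_vol e n hne hAm hBm, h]
        simp
      have h1 := hC1 e n hn hne A B hAm hBm hA0 hAt hB0 hBt f hf
      calc Ms S f ^ 2 ≤ (C1 * (volume S ^ (κ / 2) * N)) ^ 2 := by gcongr
        _ = C1 ^ 2 * N ^ 2 * (volume S ^ (κ / 2)) ^ 2 := by ring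
        _ = C1 ^ 2 * N ^ 2 * volume S ^ κ := by rw [rsq _ _ κ (by ring)]
        _ ≤ C * N ^ 2 * (σ ^ (-r) * τ ^ (-r)) ^ κ := by gcongr
        _ = _ := by
            rw [ENNReal.mul_rpow_of_nonneg _ _ hκ0.le, ← ENNReal.rpow_mul, ← ENNReal.rpow_mul,
              neg_mul]
  have b2 : Ms S f ^ 2 ≤ C * N ^ 2 * (σ ^ (-r) * τ ^ (-r)) := by
    have h1 := E2' hq S f hf
    calc Ms S f ^ 2 ≤ (8 * (volume S ^ (1 / 2 : ℝ) * N)) ^ 2 := by gcongr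
      _ = 8 ^ 2 * N ^ 2 * (volume S ^ (1 / 2 : ℝ)) ^ 2 := by ring
      _ = 8 ^ 2 * N ^ 2 * volume S := by rw [rsq _ _ 1 (by norm_num), ENNReal.rpow_one]
      _ ≤ _ := by gcongr
  have b3 : Ms S f ^ 2 ≤ C * N ^ 2 * σ ^ (-(2 / 3 * r)) := by
    have h1 := hC3 e n hn A B hAm hBm f hf
    calc Ms S f ^ 2 ≤ (C3 * (volume A ^ (1 / 3 : ℝ) * N)) ^ 2 := by gcongr
      _ = C3 ^ 2 * N ^ 2 * (volume A ^ (1 / 3 : ℝ)) ^ 2 := by ring
      _ = C3 ^ 2 * N ^ 2 * volume A ^ (2 / 3 : ℝ) := by rw [rsq _ _ (2 / 3) (by norm_num)]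
      _ ≤ C * N ^ 2 * (σ ^ (-r)) ^ (2 / 3 : ℝ) := by gcongr
      _ = _ := by
          rw [← ENNReal.rpow_mul]
          congr 2
          ring
  have b4 : Ms S f ^ 2 ≤ C * N ^ 2 * (σ ^ (-(r / 2)) * τ ^ (-r)) := by
    have h1 := hC4 e n hn hne A B hAm hBm hSt f hf
    calc Ms S f ^ 2 ≤ (C4 * ((volume B * volume S) ^ (1 / 4 : ℝ) * N)) ^ 2 := by gcongr
      _ = C4 ^ 2 * N ^ 2 * ((volume B * volume S) ^ (1 / 4 : ℝ)) ^ 2 := by ring
      _ = C4 ^ 2 * N ^ 2 * (volume B * volume S) ^ (1 / 2 : ℝ) := by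
          rw [rsq _ _ (1 / 2) (by norm_num)]
      _ ≤ C * N ^ 2 * (τ ^ (-r) * (σ ^ (-r) * τ ^ (-r))) ^ (1 / 2 : ℝ) := by gcongr
      _ = _ := by
          rw [ENNReal.mul_rpow_of_nonneg _ _ (by norm_num), ENNReal.mul_rpow_of_nonneg _ _ (by norm_num),
            ← ENNReal.rpow_mul, ← ENNReal.rpow_mul]
          have h5 : τ ^ (-r * (1 / 2)) * (σ ^ (-r * (1 / 2)) * τ ^ (-r * (1 / 2))) =
              σ ^ (-r * (1 / 2)) * (τ ^ (-r * (1 / 2)) * τ ^ (-r * (1 / 2))) := by ring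
          rw [h5, ← ENNReal.rpow_add _ _ hτ0 hτt]
          congr 3
          · ring
          · ring
  have hfac : ∀ {θ' : ℝ}, 0 ≤ θ' → θ' ≤ 1 → ∀ P R : ℝ≥0∞, (C * N ^ 2 * P) ^ (1 - θ') *
      (C * N ^ 2 * R) ^ θ' = C * N ^ 2 * (P ^ (1 - θ') * R ^ θ') := by
    intro θ' h0 h1 P R
    rw [ENNReal.mul_rpow_of_nonneg _ _ (by linarith), ENNReal.mul_rpow_of_nonneg _ _ h0]
    calc (C * N ^ 2) ^ (1 - θ') * P ^ (1 - θ') * ((C * N ^ 2) ^ θ' * R ^ θ')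
        = ((C * N ^ 2) ^ (1 - θ') * (C * N ^ 2) ^ θ') * (P ^ (1 - θ') * R ^ θ') := by ring
      _ = _ := by
          rw [← ENNReal.rpow_add_of_nonneg _ _ (by linarith) h0]
          simp
  rcases le_or_gt s 1 with hs1 | hs1
  · have hsI : s ∈ Ioc (0 : ℝ) 1 := ⟨hs, hs1⟩
    have hlos : ∀ x : ℝ, lo x s = σ ^ (-x) := fun x => indicator_of_mem hsI _
    rcases le_or_gt t 1 with ht1 | ht1
    · have htI : t ∈ Ioc (0 : ℝ) 1 := ⟨ht, ht1⟩
      have hlot : ∀ x : ℝ, lo x t = τ ^ (-x) := fun x => indicator_of_mem htI _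
      refine b1.trans ?_
      gcongr
      rw [hlos (r * κ), hlot (r * κ), add_assoc, add_assoc]
      exact le_self_add
    · have hhit : ∀ x : ℝ, hi x t = τ ^ (-x) := fun x => indicator_of_mem (show t ∈ Ioi 1 from ht1) _
      have h1 := geo2 hθ0 hθ1 b1 b4
      rw [hfac hθ0 hθ1] at h1
      refine h1.trans ?_
      gcongr
      refine le_trans (le_of_eq ?_) le_add_self
      rw [hlos, hhit, ENNReal.mul_rpow_of_nonneg _ _ (by linarith), ENNReal.mul_rpow_of_nonneg _ _ hθ0,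
        ← ENNReal.rpow_mul, ← ENNReal.rpow_mul, ← ENNReal.rpow_mul, ← ENNReal.rpow_mul]
      calc σ ^ (-(r * κ) * (1 - θ)) * τ ^ (-(r * κ) * (1 - θ)) *
            (σ ^ (-(r / 2) * θ) * τ ^ (-r * θ))
          = (σ ^ (-(r * κ) * (1 - θ)) * σ ^ (-(r / 2) * θ)) *
            (τ ^ (-(r * κ) * (1 - θ)) * τ ^ (-r * θ)) := by ring
        _ = _ := by
            rw [← ENNReal.rpow_add _ _ hσ0 hσt, ← ENNReal.rpow_add _ _ hτ0 hτt]
            congr 2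
            · ring
            · ring
  · have hhis : ∀ x : ℝ, hi x s = σ ^ (-x) := fun x => indicator_of_mem (show s ∈ Ioi 1 from hs1) _
    rcases le_or_gt t 1 with ht1 | ht1
    · have htI : t ∈ Ioc (0 : ℝ) 1 := ⟨ht, ht1⟩
      have hlot : ∀ x : ℝ, lo x t = τ ^ (-x) := fun x => indicator_of_mem htI _
      have hϑ0 : 0 ≤ 1 / r ^ 2 := by positivity
      have hϑ1 : 1 / r ^ 2 ≤ 1 := by
        rw [div_le_one (by positivity)]
        nlinarith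
      have h1 := geo2 hϑ0 hϑ1 b3 b2
      rw [hfac hϑ0 hϑ1] at h1
      refine h1.trans ?_
      gcongr
      have h2 : (σ ^ (-(2 / 3 * r))) ^ (1 - 1 / r ^ 2) * (σ ^ (-r) * τ ^ (-r)) ^ (1 / r ^ 2) =
          hi (1 / r + 2 / 3 * (r - 1 / r)) s * lo (1 / r) t := by
        rw [hhis, hlot, ENNReal.mul_rpow_of_nonneg _ _ hϑ0, ← ENNReal.rpow_mul, ← ENNReal.rpow_mul,
          ← ENNReal.rpow_mul, ← mul_assoc, ← ENNReal.rpow_add _ _ hσ0 hσt]
        congr 2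
        · field_simp
          ring
        · field_simp
      rw [h2, add_right_comm]
      exact le_add_self
    · have hhit : ∀ x : ℝ, hi x t = τ ^ (-x) := fun x => indicator_of_mem (show t ∈ Ioi 1 from ht1) _
      refine b2.trans ?_
      gcongr
      rw [hhis r, hhit r, add_assoc, add_assoc]
      exact le_trans le_self_add le_add_self

/-- the normalised weighted estimate -/
theorem WTn {q : ℝ} (hq : 3 < q) : ∃ C : ℝ≥0∞, C ≠ ∞ ∧
    ∀ (e : OrthonormalBasis (Fin 3) ℝ (E 3)) (n : E 3), n 0 ^ 2 + n 1 ^ 2 + n 2 ^ 2 = 1 →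
      (⟪n, e 2⟫ : ℝ) ≠ 0 → ∀ (u : E 2 → ℝ≥0∞) (w : ℝ → ℝ≥0∞), Measurable u → Measurable w →
      ∫⁻ y, u y ^ (q / (q - 2)) ≤ ENNReal.ofReal |(⟪n, e 2⟫ : ℝ)| →
      ∫⁻ t, w t ^ (q / (q - 2)) ≤ 1 → ∀ f : E 2 → ℂ, Ok f →
      ∫⁻ ξ, u (yc e ξ) * w ⟪n, ξ⟫ * ‖EE f ξ‖ₑ ^ 2 ≤ C * Nq q f ^ 2 := by
  have hq2 : 0 < q - 2 := by linarith
  have hr1 : 1 < q / (q - 2) := by rw [lt_div_iff₀ hq2]; linarith
  obtain ⟨C, x1, x3, y3, x4, y4, hCt, hx1, hx3, hy3, hx4, hy4, hlev⟩ := level hq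
  set r : ℝ := q / (q - 2) with hr
  set J : ℝ≥0∞ := (∫⁻ s, lo x1 s) * (∫⁻ t, lo x1 t) + (∫⁻ s, hi r s) * (∫⁻ t, hi r t) +
    (∫⁻ s, hi x3 s) * (∫⁻ t, lo y3 t) + (∫⁻ s, lo x4 s) * (∫⁻ t, hi y4 t) with hJ
  have hJt : J ≠ ∞ := by
    rw [hJ]
    refine ENNReal.add_ne_top.2 ⟨ENNReal.add_ne_top.2 ⟨ENNReal.add_ne_top.2 ⟨?_, ?_⟩, ?_⟩, ?_⟩
    · exact ENNReal.mul_ne_top (lo_fin hx1) (lo_fin hx1)
    · exact ENNReal.mul_ne_top (hi_fin hr1) (hi_fin hr1)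
    · exact ENNReal.mul_ne_top (hi_fin hx3) (lo_fin hy3)
    · exact ENNReal.mul_ne_top (lo_fin hx4) (hi_fin hy4)
  refine ⟨C * J, ENNReal.mul_ne_top hCt hJt, ?_⟩
  intro e n hn hne u w hu hw hUr hWr f hf
  have hUm : Measurable fun ξ : E 3 => u (yc e ξ) := hu.comp (yc_meas e)
  have hVm : Measurable fun ξ : E 3 => w ⟪n, ξ⟫ := hw.comp (measurable_const.inner measurable_id)
  have hGm : Measurable fun ξ : E 3 => ‖EE f ξ‖ₑ ^ 2 := (EE_meas hf.meas).enorm.pow_const 2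
  have hlay := Pool.Agent.R412.RH.layer2 (μ := (volume : Measure (E 3))) (fun ξ => u (yc e ξ))
    (fun ξ => w ⟪n, ξ⟫) (fun ξ => ‖EE f ξ‖ₑ ^ 2) hUm hVm hGm
  rw [hlay]
  have hpt : ∀ s ∈ Ioi (0 : ℝ), ∀ t ∈ Ioi (0 : ℝ),
      ∫⁻ ξ in {ξ : E 3 | ENNReal.ofReal s < u (yc e ξ) ∧ ENNReal.ofReal t < w ⟪n, ξ⟫},
        ‖EE f ξ‖ₑ ^ 2 ≤ C * Nq q f ^ 2 * (lo x1 s * lo x1 t + hi r s * hi r t +
          hi x3 s * lo y3 t + lo x4 s * hi y4 t) := by
    intro s hs t ht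
    have h1 := hlev e n hn hne u w hu hw hUr hWr f hf s t hs ht
    rw [Ms_sq] at h1
    exact h1
  calc ∫⁻ s in Ioi (0 : ℝ), ∫⁻ t in Ioi (0 : ℝ),
        ∫⁻ ξ in {ξ : E 3 | ENNReal.ofReal s < u (yc e ξ) ∧ ENNReal.ofReal t < w ⟪n, ξ⟫},
          ‖EE f ξ‖ₑ ^ 2
      ≤ ∫⁻ s in Ioi (0 : ℝ), ∫⁻ t in Ioi (0 : ℝ), C * Nq q f ^ 2 *
          (lo x1 s * lo x1 t + hi r s * hi r t + hi x3 s * lo y3 t + lo x4 s * hi y4 t) := by
        refine setLIntegral_mono' measurableSet_Ioi fun s hs => ?_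
        exact setLIntegral_mono' measurableSet_Ioi fun t ht => hpt s hs t ht
    _ ≤ ∫⁻ s : ℝ, ∫⁻ t : ℝ, C * Nq q f ^ 2 *
          (lo x1 s * lo x1 t + hi r s * hi r t + hi x3 s * lo y3 t + lo x4 s * hi y4 t) :=
        (setLIntegral_le_lintegral _ _).trans
          (lintegral_mono fun s => setLIntegral_le_lintegral _ _)
    _ = C * J * Nq q f ^ 2 := by
        have hin : ∀ s : ℝ, ∫⁻ t : ℝ, C * Nq q f ^ 2 *
            (lo x1 s * lo x1 t + hi r s * hi r t + hi x3 s * lo y3 t + lo x4 s * hi y4 t) =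
            C * Nq q f ^ 2 * (lo x1 s * (∫⁻ t, lo x1 t) + hi r s * (∫⁻ t, hi r t) +
              hi x3 s * (∫⁻ t, lo y3 t) + lo x4 s * (∫⁻ t, hi y4 t)) := by
          intro s
          have hm : Measurable fun t : ℝ => lo x1 s * lo x1 t + hi r s * hi r t +
              hi x3 s * lo y3 t + lo x4 s * hi y4 t :=
            ((((lo_meas x1).const_mul _).add ((hi_meas r).const_mul _)).add
            ((lo_meas y3).const_mul _)).add ((hi_meas y4).const_mul _)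
          rw [lintegral_const_mul _ hm,
            lintegral_add_right _ ((hi_meas y4).const_mul _),
            lintegral_add_right _ ((lo_meas y3).const_mul _),
            lintegral_add_right _ ((hi_meas r).const_mul _),
            lintegral_const_mul _ (lo_meas x1), lintegral_const_mul _ (hi_meas r),
            lintegral_const_mul _ (lo_meas y3), lintegral_const_mul _ (hi_meas y4)]
        simp_rw [hin]
        have hm : Measurable fun s : ℝ => lo x1 s * (∫⁻ t, lo x1 t) + hi r s * (∫⁻ t, hi r t) +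
              hi x3 s * (∫⁻ t, lo y3 t) + lo x4 s * (∫⁻ t, hi y4 t) :=
          ((((lo_meas x1).mul_const _).add ((hi_meas r).mul_const _)).add
            ((hi_meas x3).mul_const _)).add ((lo_meas x4).mul_const _)
        rw [lintegral_const_mul _ hm,
            lintegral_add_right _ ((lo_meas x4).mul_const _),
            lintegral_add_right _ ((hi_meas x3).mul_const _),
            lintegral_add_right _ ((hi_meas r).mul_const _),
            lintegral_mul_const _ (lo_meas x1), lintegral_mul_const _ (hi_meas r),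
            lintegral_mul_const _ (hi_meas x3), lintegral_mul_const _ (lo_meas x4), hJ]
        ring

/-- **the weighted estimate** -/
theorem WTd {q : ℝ} (hq : 3 < q) : ∃ C : ℝ≥0∞, C ≠ ∞ ∧
    ∀ (e : OrthonormalBasis (Fin 3) ℝ (E 3)) (n : E 3), n 0 ^ 2 + n 1 ^ 2 + n 2 ^ 2 = 1 →
      (⟪n, e 2⟫ : ℝ) ≠ 0 → ∀ (u : E 2 → ℝ≥0∞) (w : ℝ → ℝ≥0∞), Measurable u → Measurable w →
      ∀ f : E 2 → ℂ, Ok f →
      ∫⁻ ξ, u (yc e ξ) * w ⟪n, ξ⟫ * ‖EE f ξ‖ₑ ^ 2 ≤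
        C * (∫⁻ ξ, (u (yc e ξ) * w ⟪n, ξ⟫) ^ (q / (q - 2))) ^ ((q - 2) / q) * Nq q f ^ 2 := by
  have hq2 : 0 < q - 2 := by linarith
  have hq0 : 0 < q := by linarith
  obtain ⟨C, hCt, hC⟩ := WTn hq
  set r : ℝ := q / (q - 2) with hr
  have hr0 : 0 < r := by positivity
  have hrinv : (q - 2) / q = 1 / r := by rw [hr, one_div_div]
  refine ⟨C + 1, ENNReal.add_ne_top.2 ⟨hCt, by norm_num⟩, ?_⟩
  intro e n hn hne u w hu hw f hf
  rw [hrinv]
  set μ0 : ℝ := |(⟪n, e 2⟫ : ℝ)| with hμ0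
  have hμpos : 0 < μ0 := abs_pos.2 hne
  have hUm : Measurable fun ξ : E 3 => u (yc e ξ) := hu.comp (yc_meas e)
  have hVm : Measurable fun ξ : E 3 => w ⟪n, ξ⟫ := hw.comp (measurable_const.inner measurable_id)
  set I : ℝ≥0∞ := ∫⁻ ξ, (u (yc e ξ) * w ⟪n, ξ⟫) ^ r with hI
  set Ur : ℝ≥0∞ := ∫⁻ y, u y ^ r with hUr
  set Wr : ℝ≥0∞ := ∫⁻ t, w t ^ r with hWr
  have hIeq : I = ENNReal.ofReal (1 / μ0) * (Ur * Wr) := by
    rw [hI, hUr, hWr, ← prod_lint e n hne (fun y => u y ^ r) (fun t => w t ^ r)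
      (hu.pow_const r) (hw.pow_const r)]
    refine lintegral_congr fun ξ => ?_
    rw [ENNReal.mul_rpow_of_nonneg _ _ hr0.le]
  by_cases hI0 : I = 0
  · have h1 : (fun ξ => (u (yc e ξ) * w ⟪n, ξ⟫) ^ r) =ᵐ[volume] 0 :=
      (lintegral_eq_zero_iff ((hUm.mul hVm).pow_const r)).1 hI0
    have hm : Measurable fun ξ : E 3 => u (yc e ξ) * w ⟪n, ξ⟫ * ‖EE f ξ‖ₑ ^ 2 :=
      (hUm.mul hVm).mul ((EE_meas hf.meas).enorm.pow_const 2)
    have h2 : ∫⁻ ξ, u (yc e ξ) * w ⟪n, ξ⟫ * ‖EE f ξ‖ₑ ^ 2 = 0 := by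
      rw [lintegral_eq_zero_iff hm]
      filter_upwards [h1] with ξ hξ
      simp only [Pi.zero_apply] at hξ ⊢
      rw [(ENNReal.rpow_eq_zero_iff_of_pos hr0).1 hξ, zero_mul]
    rw [h2]
    exact zero_le
  by_cases hN0 : Nq q f = 0
  · have h1 : f =ᵐ[volume] 0 := by
      unfold Nq at hN0
      rw [ENNReal.rpow_eq_zero_iff_of_pos (by positivity),
        lintegral_eq_zero_iff (hf.meas.enorm.pow_const q)] at hN0
      filter_upwards [hN0] with x hx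
      simp only [Pi.zero_apply] at hx
      have h3 := (ENNReal.rpow_eq_zero_iff_of_pos hq0).1 hx
      simpa using h3
    have h2 : ∀ ξ, EE f ξ = 0 := by
      intro ξ
      rw [EE_congr h1]
      unfold EE
      simp
    simp_rw [h2]
    simp
  by_cases hIt : I = ∞
  · rw [hIt, ENNReal.top_rpow_of_pos (by positivity), ENNReal.mul_top, ENNReal.top_mul]
    · exact le_top
    · exact pow_ne_zero 2 hN0
    · exact (lt_of_lt_of_le one_pos le_add_self).ne'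
  have hX0 : ENNReal.ofReal (1 / μ0) ≠ 0 := by
    simp only [ne_eq, ENNReal.ofReal_eq_zero, not_le]
    positivity
  have hUW0 : Ur * Wr ≠ 0 := by
    intro h
    apply hI0
    rw [hIeq, h, mul_zero]
  have hU0 : Ur ≠ 0 := left_ne_zero_of_mul hUW0
  have hW0 : Wr ≠ 0 := right_ne_zero_of_mul hUW0
  have hUWt : Ur * Wr ≠ ∞ := by
    intro h
    apply hIt
    rw [hIeq, h, ENNReal.mul_top hX0]
  have hUt : Ur ≠ ∞ := by
    intro h
    rw [h, ENNReal.top_mul hW0] at hUWt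
    exact hUWt rfl
  have hWt : Wr ≠ ∞ := by
    intro h
    rw [h, ENNReal.mul_top hU0] at hUWt
    exact hUWt rfl
  set M0 : ℝ≥0∞ := ENNReal.ofReal μ0 with hM0
  have hM00 : M0 ≠ 0 := by
    rw [hM0]
    simp only [ne_eq, ENNReal.ofReal_eq_zero, not_le]
    exact hμpos
  have hM0t : M0 ≠ ∞ := ENNReal.ofReal_ne_top
  have hMinv : ENNReal.ofReal (1 / μ0) = M0⁻¹ := by
    rw [one_div, ENNReal.ofReal_inv_of_pos hμpos]
  set c1 : ℝ≥0∞ := (M0⁻¹ * Ur) ^ (1 / r) with hc1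
  set c2 : ℝ≥0∞ := Wr ^ (1 / r) with hc2
  have hpw : ∀ (x : ℝ≥0∞) (y : ℝ), x ≠ 0 → x ≠ ∞ → x ^ y ≠ 0 ∧ x ^ y ≠ ∞ := fun x y h0 ht =>
      ⟨(ENNReal.rpow_pos (pos_iff_ne_zero.2 h0) ht).ne', ENNReal.rpow_ne_top_of_ne_zero h0 ht⟩
  have hc1' := hpw (M0⁻¹ * Ur) (1 / r) (mul_ne_zero (ENNReal.inv_ne_zero.2 hM0t) hU0)
    (ENNReal.mul_ne_top (ENNReal.inv_ne_top.2 hM00) hUt)
  have hc2' := hpw Wr (1 / r) hW0 hWt
  rw [← hc1] at hc1'
  rw [← hc2] at hc2'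
  have hpr : ∀ x : ℝ≥0∞, (x ^ (1 / r)) ^ r = x := by
    intro x
    rw [← ENNReal.rpow_mul]
    have : 1 / r * r = 1 := by field_simp
    rw [this, ENNReal.rpow_one]
  have hu' : ∫⁻ y, (c1⁻¹ * u y) ^ r ≤ M0 := by
    simp_rw [ENNReal.mul_rpow_of_nonneg _ _ hr0.le]
    rw [lintegral_const_mul _ (hu.pow_const r), ENNReal.inv_rpow, hc1, hpr, ← hUr,
      ENNReal.mul_inv (Or.inr hUt) (Or.inr hU0), inv_inv, mul_assoc,
      ENNReal.inv_mul_cancel hU0 hUt, mul_one]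
  have hw' : ∫⁻ t, (c2⁻¹ * w t) ^ r ≤ 1 := by
    simp_rw [ENNReal.mul_rpow_of_nonneg _ _ hr0.le]
    rw [lintegral_const_mul _ (hw.pow_const r), ENNReal.inv_rpow, hc2, hpr, ← hWr,
      ENNReal.inv_mul_cancel hW0 hWt]
  have hmain := hC e n hn hne (fun y => c1⁻¹ * u y) (fun t => c2⁻¹ * w t) (hu.const_mul _)
    (hw.const_mul _) hu' hw' f hf
  have hscale : ∫⁻ ξ, u (yc e ξ) * w ⟪n, ξ⟫ * ‖EE f ξ‖ₑ ^ 2 =
      c1 * c2 * ∫⁻ ξ, (c1⁻¹ * u (yc e ξ)) * (c2⁻¹ * w ⟪n, ξ⟫) * ‖EE f ξ‖ₑ ^ 2 := by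
    have hm : Measurable fun ξ : E 3 => (c1⁻¹ * u (yc e ξ)) * (c2⁻¹ * w ⟪n, ξ⟫) * ‖EE f ξ‖ₑ ^ 2 :=
      ((hUm.const_mul _).mul (hVm.const_mul _)).mul ((EE_meas hf.meas).enorm.pow_const 2)
    rw [← lintegral_const_mul _ hm]
    refine lintegral_congr fun ξ => ?_
    calc u (yc e ξ) * w ⟪n, ξ⟫ * ‖EE f ξ‖ₑ ^ 2
        = (c1 * c1⁻¹) * (c2 * c2⁻¹) * (u (yc e ξ) * w ⟪n, ξ⟫ * ‖EE f ξ‖ₑ ^ 2) := by
          rw [ENNReal.mul_inv_cancel hc1'.1 hc1'.2, ENNReal.mul_inv_cancel hc2'.1 hc2'.2, one_mul,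
            one_mul]
      _ = _ := by ring
  rw [hscale]
  calc c1 * c2 * ∫⁻ ξ, (c1⁻¹ * u (yc e ξ)) * (c2⁻¹ * w ⟪n, ξ⟫) * ‖EE f ξ‖ₑ ^ 2
      ≤ c1 * c2 * (C * Nq q f ^ 2) := by gcongr
    _ = C * I ^ (1 / r) * Nq q f ^ 2 := by
        rw [hc1, hc2, hIeq, hMinv, ← ENNReal.mul_rpow_of_nonneg _ _ (by positivity), mul_assoc M0⁻¹]
        ring
    _ ≤ _ := by
        gcongr
        exact le_self_add

end Pool.Agent.K4H46.CW
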